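import Mathlib

/-!
# The complete graph on five vertices as a space

`Y` is the 1-skeleton of the 4-simplex in `ℝ^5`.
-/

set_option autoImplicit false

namespace Pool.Agent.Hx53.K5

open Set Topology

/-- the 1-skeleton of the 4-simplex -/
abbrev Y : Type := {x : Fin 5 → ℝ // (∀ i, 0 ≤ x i) ∧ ∑ i, x i = 1 ∧
  ∃ a b : Fin 5, a ≠ b ∧ ∀ i, i ≠ a → i ≠ b → x i = 0}

/-- the point of the edge from `a` to `b` -/
def pt (a b : Fin 5) (t : ℝ) : Fin 5 → ℝ := fun i => if i = a then 1 - t else if i = b then t else 0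

theorem pt_sum {a b : Fin 5} (h : a ≠ b) (t : ℝ) : ∑ i, pt a b t i = 1 := by
  have : ∀ i, pt a b t i = (if i = a then (1 - t) else 0) + (if i = b then t else 0) := by
    intro i
    unfold pt
    split_ifs with h1 h2 h2
    · exact absurd (h1.symm.trans h2) h
    · simp
    · simp
    · simp
  simp only [this, Finset.sum_add_distrib, Finset.sum_ite_eq', Finset.mem_univ, if_true]
  ring

theorem pt_mem {a b : Fin 5} (h : a ≠ b) {t : ℝ} (ht : t ∈ Icc (0 : ℝ) 1) :
    (∀ i, 0 ≤ pt a b t i) ∧ ∑ i, pt a b t i = 1 ∧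
      ∃ a b : Fin 5, a ≠ b ∧ ∀ i, i ≠ a → i ≠ b → pt a b t i = 0 ∨ True := by
  refine ⟨fun i => ?_, pt_sum h t, a, b, h, fun i _ _ => Or.inr trivial⟩
  unfold pt
  split_ifs
  · linarith [ht.2]
  · exact ht.1
  · exact le_rfl

/-- the point of the edge from `a` to `b` -/
def mk (a b : Fin 5) (h : a ≠ b) (t : unitInterval) : Y :=
  ⟨pt a b t, (pt_mem h t.2).1, pt_sum h t, a, b, h, fun i h1 h2 => by simp [pt, h1, h2]⟩

theorem continuous_mk {a b : Fin 5} (h : a ≠ b) : Continuous (mk a b h) := by
  refine Continuous.subtype_mk ?_ _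
  refine continuous_pi fun i => ?_
  unfold pt
  split_ifs
  · fun_prop
  · fun_prop
  · fun_prop

/-- the closed edge -/
def edge (a b : Fin 5) : Set Y := {x | ∀ i, i ≠ a → i ≠ b → x.1 i = 0}

theorem edge_eq {a b : Fin 5} (h : a ≠ b) : edge a b = range (mk a b h) := by
  ext x
  constructor
  · intro hx
    have hs := x.2.2.1
    have h2 : x.1 a + x.1 b = 1 := by
      refine Eq.trans ?_ hs
      rw [← Finset.sum_pair h]
      apply Finset.sum_subset (Finset.subset_univ _)
      intro i _ hi
      simp only [Finset.mem_insert, Finset.mem_singleton, not_or] at hi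
      exact hx i hi.1 hi.2
    have ha := x.2.1 a
    have hb := x.2.1 b
    refine ⟨⟨x.1 b, hb, by linarith⟩, ?_⟩
    apply Subtype.ext
    funext i
    change pt a b (x.1 b) i = x.1 i
    unfold pt
    split_ifs with h3 h4
    · rw [h3]; linarith
    · rw [h4]
    · exact (hx i h3 h4).symm
  · rintro ⟨t, rfl⟩ i h1 h2
    change pt a b t i = 0
    simp [pt, h1, h2]

theorem edge_closed (a b : Fin 5) : IsClosed (edge a b) := by
  have : edge a b = ⋂ i : Fin 5, {x : Y | i ≠ a → i ≠ b → x.1 i = 0} := by
    ext x; simp [edge]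
  rw [this]
  refine isClosed_iInter fun i => ?_
  by_cases h : i ≠ a ∧ i ≠ b
  · have : {x : Y | i ≠ a → i ≠ b → x.1 i = 0} = {x : Y | x.1 i = 0} := by
      ext x; simp [h.1, h.2]
    rw [this]
    exact isClosed_eq ((continuous_apply i).comp continuous_subtype_val) continuous_const
  · have : {x : Y | i ≠ a → i ≠ b → x.1 i = 0} = univ := by
      ext x; simp only [mem_ofPred_eq, mem_univ, iff_true]; tauto
    rw [this]; exact isClosed_univ

theorem edge_connected {a b : Fin 5} (h : a ≠ b) : IsConnected (edge a b) := by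
  rw [edge_eq h]
  exact isConnected_range (continuous_mk h)

theorem edge_disj {a b c d : Fin 5} (h1 : a ≠ c) (h2 : a ≠ d) (h3 : b ≠ c) (h4 : b ≠ d) :
    Disjoint (edge a b) (edge c d) := by
  rw [Set.disjoint_left]
  intro x hx hy
  have hz : ∀ i, x.1 i = 0 := by
    intro i
    by_cases hi : i ≠ a ∧ i ≠ b
    · exact hx i hi.1 hi.2
    · have : i ≠ c ∧ i ≠ d := by
        rw [not_and_or, not_not, not_not] at hi
        rcases hi with rfl | rfl
        · exact ⟨h1, h2⟩
        · exact ⟨h3, h4⟩
      exact hy i this.1 this.2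
  have := x.2.2.1
  simp [hz] at this

/-- the vertices -/
def vert (a : Fin 5) : Y := ⟨Pi.single a 1, fun i => by
    by_cases h : i = a
    · subst h; simp
    · simp [h], by simp, a, a + 1, by revert a; decide, fun i h _ => by simp [h]⟩

theorem vert_mem_left (a b : Fin 5) : vert a ∈ edge a b := fun i h _ => by
  change (Pi.single a (1 : ℝ) : Fin 5 → ℝ) i = 0
  simp [h]

theorem vert_mem_right (a b : Fin 5) : vert b ∈ edge a b := fun i _ h => by
  change (Pi.single b (1 : ℝ) : Fin 5 → ℝ) i = 0
  simp [h]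

/-- the parametrisation of the space -/
def param (p : (_ : {p : Fin 5 × Fin 5 // p.1 ≠ p.2}) × unitInterval) : Y :=
  mk p.1.1.1 p.1.1.2 p.1.2 p.2

theorem continuous_param : Continuous param := by
  apply continuous_sigma
  intro p
  exact continuous_mk p.2

theorem surjective_param : Function.Surjective param := by
  intro x
  obtain ⟨a, b, hab, h⟩ := x.2.2.2
  have : x ∈ edge a b := h
  rw [edge_eq hab] at this
  obtain ⟨t, ht⟩ := this
  exact ⟨⟨⟨(a, b), hab⟩, t⟩, ht⟩

instance : CompactSpace Y := ⟨by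
  rw [← surjective_param.range_eq]
  exact isCompact_range continuous_param⟩

theorem quot_param : IsQuotientMap param :=
  (continuous_param.isClosedMap).isQuotientMap continuous_param surjective_param

instance : LocallyPathConnectedSpace unitInterval := by
  have h : IsQuotientMap (projIcc (0 : ℝ) 1 zero_le_one) :=
    IsQuotientMap.of_inverse (f := ((↑) : unitInterval → ℝ)) continuous_subtype_val
      continuous_projIcc (fun x => projIcc_val zero_le_one x)
  exact h.locallyPathConnectedSpace

instance : LocallyPathConnectedSpace Y := quot_param.locallyPathConnectedSpace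

instance : Nontrivial Y := ⟨vert 0, vert 1, by
  intro h
  have := congrFun (congrArg Subtype.val h) 0
  simp [vert] at this⟩

instance : ConnectedSpace Y := by
  have : PreconnectedSpace Y := ⟨by
    apply isPreconnected_of_forall (vert 0)
    intro y _
    obtain ⟨a, b, hab, h⟩ := y.2.2.2
    have hy : y ∈ edge a b := h
    by_cases ha : a = 0
    · subst ha
      exact ⟨edge 0 b, subset_univ _, vert_mem_left _ _, hy, (edge_connected hab).isPreconnected⟩
    · refine ⟨edge 0 a ∪ edge a b, subset_univ _, Or.inl (vert_mem_left _ _), Or.inr hy, ?_⟩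
      exact (edge_connected (Ne.symm ha)).isPreconnected.union (vert a) (vert_mem_right _ _)
        (vert_mem_left _ _) (edge_connected hab).isPreconnected⟩
  exact { toPreconnectedSpace := this, toNonempty := ⟨vert 0⟩ }

/-- every nondegenerate subcontinuum has interior points -/
theorem interior_of_continuum {L : Set Y} (_hL : IsClosed L) (hc : IsConnected L)
    (hn : L.Nontrivial) : ∃ U : Set Y, IsOpen U ∧ U.Nonempty ∧ U ⊆ L := by
  classical
  -- there is a point which is not a vertex
  obtain ⟨z, hz, hzv⟩ : ∃ z ∈ L, ∀ a, z ≠ vert a := by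
    by_contra hcon
    push Not at hcon
    have hfin : L.Finite := by
      apply (Set.finite_range vert).subset
      intro z hz
      obtain ⟨a, ha⟩ := hcon z hz
      exact ⟨a, ha.symm⟩
    exact (hc.isPreconnected.infinite_of_nontrivial hn) hfin
  obtain ⟨a, b, hab, hzab⟩ := z.2.2.2
  have hze : z ∈ edge a b := hzab
  rw [edge_eq hab] at hze
  obtain ⟨t₀, ht₀⟩ := hze
  have hz_b : z.1 b = t₀ := by
    rw [← ht₀]; change pt a b t₀ b = t₀; simp [pt, hab.symm]
  have ht0 : (t₀ : ℝ) ≠ 0 := by
    intro h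
    apply hzv a
    rw [← ht₀]
    apply Subtype.ext
    funext i
    change pt a b t₀ i = (Pi.single a (1 : ℝ) : Fin 5 → ℝ) i
    unfold pt
    rw [h]
    by_cases hi : i = a
    · subst hi; simp
    · simp [hi]
  have ht1 : (t₀ : ℝ) ≠ 1 := by
    intro h
    apply hzv b
    rw [← ht₀]
    apply Subtype.ext
    funext i
    change pt a b t₀ i = (Pi.single b (1 : ℝ) : Fin 5 → ℝ) i
    unfold pt
    rw [h]
    by_cases hi : i = b
    · subst hi; simp [hab.symm]
    · by_cases hi2 : i = a
      · subst hi2; simp [hab]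
      · simp [hi, hi2]
  have h0 : 0 < (t₀ : ℝ) := lt_of_le_of_ne t₀.2.1 (Ne.symm ht0)
  have h1 : (t₀ : ℝ) < 1 := lt_of_le_of_ne t₀.2.2 ht1
  -- open pieces of the edge
  let O : ℝ → ℝ → Set Y := fun s t => {x | x.1 b ∈ Ioo s t ∧ 0 < x.1 a}
  have hO : ∀ s t, IsOpen (O s t) := by
    intro s t
    have c1 : Continuous fun x : Y => x.1 b := (continuous_apply b).comp continuous_subtype_val
    have c2 : Continuous fun x : Y => x.1 a := (continuous_apply a).comp continuous_subtype_val
    exact (isOpen_Ioo.preimage c1).inter (isOpen_Ioi.preimage c2)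
  have hOe : ∀ s t x, 0 ≤ s → x ∈ O s t → ∃ τ : unitInterval, (τ : ℝ) ∈ Ioo s t ∧ x = mk a b hab τ := by
    intro s t x hs hx
    have hxe : x ∈ edge a b := by
      obtain ⟨c, d, hcd, h⟩ := x.2.2.2
      have ha : a = c ∨ a = d := by
        by_contra hcon
        push Not at hcon
        have := h a hcon.1 hcon.2
        linarith [hx.2]
      have hb : b = c ∨ b = d := by
        by_contra hcon
        push Not at hcon
        have := h b hcon.1 hcon.2
        linarith [hx.1.1]
      intro i hi1 hi2
      apply h i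
      · rintro rfl
        rcases ha with h3 | h3
        · exact hi1 h3.symm
        · rcases hb with h4 | h4
          · exact hi2 h4.symm
          · exact hab (h3.trans h4.symm)
      · rintro rfl
        rcases ha with h3 | h3
        · rcases hb with h4 | h4
          · exact hab (h3.trans h4.symm)
          · exact hi2 h4.symm
        · exact hi1 h3.symm
    rw [edge_eq hab] at hxe
    obtain ⟨τ, rfl⟩ := hxe
    refine ⟨τ, ?_, rfl⟩
    have : (mk a b hab τ).1 b = τ := by change pt a b τ b = τ; simp [pt, hab.symm]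
    rw [← this]; exact hx.1
  have hmk : ∀ τ : unitInterval, (mk a b hab τ).1 b = τ := by
    intro τ; change pt a b τ b = τ; simp [pt, hab.symm]
  have hmk' : ∀ τ : unitInterval, (mk a b hab τ).1 a = 1 - τ := by
    intro τ; change pt a b τ a = 1 - τ; simp [pt]
  by_cases hint : ∃ s t : ℝ, 0 ≤ s ∧ s < t ∧ t ≤ 1 ∧ ∀ τ : unitInterval, (τ : ℝ) ∈ Ioo s t → mk a b hab τ ∈ L
  · obtain ⟨s, t, hs, hst, ht, hall⟩ := hint
    refine ⟨O s t, hO s t, ?_, ?_⟩
    · refine ⟨mk a b hab ⟨(s + t) / 2, by constructor <;> linarith⟩, ?_, ?_⟩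
      · rw [hmk]; constructor <;> simp only <;> linarith
      · rw [hmk']; simp only; linarith
    · intro x hx
      obtain ⟨τ, hτ, rfl⟩ := hOe s t x hs hx
      exact hall τ hτ
  · exfalso
    push Not at hint
    -- the second point of `L`
    obtain ⟨w, hw, hwz⟩ := hn.exists_ne z
    have key : ∀ s t : ℝ, 0 ≤ s → s < t₀ → (t₀ : ℝ) < t → t ≤ 1 → w ∈ O s t := by
      intro s t hs hs' ht' ht
      obtain ⟨σ, hσ, hσL⟩ := hint s t₀ hs hs' h1.le
      obtain ⟨τ, hτ, hτL⟩ := hint t₀ t h0.le ht' ht
      have hsub : L ⊆ O σ τ := by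
        have hcl : L ∩ closure (O σ τ) ⊆ O σ τ := by
          rintro x ⟨hxL, hxc⟩
          have hxc2 : x.1 b ∈ Icc (σ : ℝ) τ := by
            have c1 : Continuous fun x : Y => x.1 b := (continuous_apply b).comp continuous_subtype_val
            have : closure (O σ τ) ⊆ (fun x : Y => x.1 b) ⁻¹' Icc (σ : ℝ) τ :=
              closure_minimal (fun y hy => Ioo_subset_Icc_self hy.1) (isClosed_Icc.preimage c1)
            exact this hxc
          have hxe : x ∈ edge a b := by
            apply closure_minimal _ (edge_closed a b) hxc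
            intro y hy
            obtain ⟨τ', -, rfl⟩ := hOe σ τ y σ.2.1 hy
            rw [edge_eq hab]
            exact ⟨τ', rfl⟩
          rw [edge_eq hab] at hxe
          obtain ⟨ρ, rfl⟩ := hxe
          rw [hmk] at hxc2
          have hne1 : (σ : ℝ) ≠ ρ := fun h => hσL (by rw [Subtype.ext h]; exact hxL)
          have hne2 : (ρ : ℝ) ≠ τ := fun h => hτL (by rw [← Subtype.ext h]; exact hxL)
          have l1 : (σ : ℝ) < ρ := lt_of_le_of_ne hxc2.1 hne1
          have l2 : (ρ : ℝ) < τ := lt_of_le_of_ne hxc2.2 hne2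
          refine ⟨by rw [hmk]; exact ⟨l1, l2⟩, ?_⟩
          rw [hmk']
          linarith [τ.2.2]
        apply hc.isPreconnected.subset_of_closure_inter_subset (hO _ _) ?_ (by rwa [inter_comm] at hcl)
        refine ⟨z, hz, ?_⟩
        rw [← ht₀]
        refine ⟨by rw [hmk]; exact ⟨hσ.2, hτ.1⟩, ?_⟩
        rw [hmk']
        linarith
      have := hsub hw
      exact ⟨⟨lt_trans hσ.1 this.1.1, lt_trans this.1.2 hτ.2⟩, this.2⟩
    have hwe := hOe 0 1 w le_rfl (key 0 1 le_rfl h0 h1 le_rfl)
    obtain ⟨ω, hω, rfl⟩ := hwe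
    have hne : (ω : ℝ) ≠ t₀ := by
      intro h
      apply hwz
      rw [← ht₀, Subtype.ext h]
    rcases lt_or_gt_of_ne hne with h | h
    · have := key ω 1 ω.2.1 h h1 le_rfl
      have := this.1.1
      rw [hmk] at this
      exact lt_irrefl _ this
    · have := key 0 ω le_rfl h0 h ω.2.2
      have := this.1.2
      rw [hmk] at this
      exact lt_irrefl _ this

end Pool.Agent.Hx53.K5
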