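import Pool.Agent.Hx53.Van
import Pool.Agent.Hx53.K5

/-!
# The complete graph on five vertices is not a monotone image of a plane continuum
-/

set_option autoImplicit false

namespace Pool.Agent.Hx53.NoPlanar

open Set Topology Metric Pool.Agent.Hx53.K5

/-- preimages of connected closed sets under closed maps with connected fibres -/
theorem preimage_connected {X Z : Type} [TopologicalSpace X] [CompactSpace X] [TopologicalSpace Z]
    [T2Space Z] {f : X → Z} (hf : Continuous f) (hs : Function.Surjective f)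
    (hfib : ∀ z, IsPreconnected (f ⁻¹' {z})) {C : Set Z} (hC : IsClosed C) (hCc : IsConnected C) :
    IsConnected (f ⁻¹' C) := by
  refine ⟨hCc.nonempty.preimage hs, ?_⟩
  rw [isPreconnected_closed_iff]
  rintro T T' hT hT' hcov ⟨x, hx, hxT⟩ ⟨x', hx', hxT'⟩
  have hfc := hf.isClosedMap
  have hpc : IsClosed (f ⁻¹' C) := hC.preimage hf
  have h1 : IsClosed (f '' (f ⁻¹' C ∩ T)) := hfc _ (hpc.inter hT)
  have h2 : IsClosed (f '' (f ⁻¹' C ∩ T')) := hfc _ (hpc.inter hT')
  obtain ⟨z, hz, ⟨u, ⟨huC, huT⟩, hu⟩, ⟨v, ⟨hvC, hvT⟩, hv⟩⟩ :=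
    (isPreconnected_closed_iff.1 hCc.isPreconnected) _ _ h1 h2 (by
      intro z hz
      obtain ⟨w, rfl⟩ := hs z
      rcases hcov (show w ∈ f ⁻¹' C from hz) with h | h
      · exact Or.inl ⟨w, ⟨hz, h⟩, rfl⟩
      · exact Or.inr ⟨w, ⟨hz, h⟩, rfl⟩) ⟨f x, hx, x, ⟨hx, hxT⟩, rfl⟩ ⟨f x', hx', x', ⟨hx', hxT'⟩, rfl⟩
  have hsub : f ⁻¹' {z} ⊆ f ⁻¹' C := fun y hy => by
    have : f y = z := hy
    change f y ∈ C
    rwa [this]
  obtain ⟨y, hy, hyT⟩ := (isPreconnected_closed_iff.1 (hfib z)) T T' hT hT' (hsub.trans hcov)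
    ⟨u, hu, huT⟩ ⟨v, hv, hvT⟩
  exact ⟨y, hsub hy, hyT⟩

theorem thickening_connected {E : Type} [NormedAddCommGroup E] [NormedSpace ℝ E] {A : Set E}
    (hA : IsConnected A) {δ : ℝ} (hδ : 0 < δ) : IsConnected (thickening δ A) := by
  obtain ⟨x₀, hx₀⟩ := hA.nonempty
  refine ⟨⟨x₀, self_subset_thickening hδ A hx₀⟩, ?_⟩
  apply isPreconnected_of_forall x₀
  intro y hy
  obtain ⟨z, hz, hyz⟩ := mem_thickening_iff.1 hy
  refine ⟨A ∪ ball z δ, ?_, Or.inl hx₀, Or.inr (mem_ball.2 hyz), ?_⟩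
  · rintro w (hw | hw)
    · exact self_subset_thickening hδ A hw
    · exact mem_thickening_iff.2 ⟨z, hz, mem_ball.1 hw⟩
  · exact hA.isPreconnected.union z hz (mem_ball_self hδ) (convex_ball z δ).isPreconnected

/-- the plane as the complex line -/
noncomputable def toC (x : EuclideanSpace ℝ (Fin 2)) : ℂ := ⟨x 0, x 1⟩

theorem continuous_toC : Continuous toC := by
  have : toC = fun x => ((x 0 : ℝ) : ℂ) + (x 1 : ℝ) * Complex.I := by
    funext x; apply Complex.ext <;> simp [toC]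
  rw [this]
  fun_prop

theorem toC_inj : Function.Injective toC := by
  intro x y h
  ext i
  fin_cases i
  · exact congrArg Complex.re h
  · exact congrArg Complex.im h

/-- there is no plane continuum with a monotone map onto the graph -/
theorem no_map (S : Set (EuclideanSpace ℝ (Fin 2))) (f : ↥S → Y) (hS : IsCompact S)
    (hf : Continuous f) (hs : Function.Surjective f)
    (hfib : ∀ y : Y, IsConnected (Subtype.val '' (f ⁻¹' {y}))) : False := by
  have hcs : CompactSpace S := isCompact_iff_compactSpace.1 hS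
  have hfib' : ∀ y : Y, IsPreconnected (f ⁻¹' {y}) := fun y =>
    (IsInducing.subtypeVal.isPreconnected_image).1 (hfib y).isPreconnected
  let A : Fin 5 → Fin 5 → Set (EuclideanSpace ℝ (Fin 2)) := fun a b =>
    Subtype.val '' (f ⁻¹' (edge a b))
  have hAc : ∀ a b, a ≠ b → IsConnected (A a b) := fun a b h =>
    (preimage_connected hf hs hfib' (edge_closed a b) (edge_connected h)).image _
      continuous_subtype_val.continuousOn
  have hAk : ∀ a b, IsCompact (A a b) := fun a b =>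
    ((edge_closed a b).preimage hf).isCompact.image continuous_subtype_val
  have hAd : ∀ a b c d, a ≠ c → a ≠ d → b ≠ c → b ≠ d → Disjoint (A a b) (A c d) := by
    intro a b c d h1 h2 h3 h4
    rw [Set.disjoint_left]
    rintro _ ⟨x, hx, rfl⟩ ⟨y, hy, hxy⟩
    have : y = x := Subtype.ext hxy
    subst this
    exact Set.disjoint_left.1 (edge_disj h1 h2 h3 h4) hx hy
  -- the common size of the thickenings
  have hex : ∀ q : Fin 5 × Fin 5 × Fin 5 × Fin 5, ∃ δ : ℝ, 0 < δ ∧
      (q.1 ≠ q.2.2.1 → q.1 ≠ q.2.2.2 → q.2.1 ≠ q.2.2.1 → q.2.1 ≠ q.2.2.2 →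
        Disjoint (thickening δ (A q.1 q.2.1)) (thickening δ (A q.2.2.1 q.2.2.2))) := by
    rintro ⟨a, b, c, d⟩
    by_cases h : a ≠ c ∧ a ≠ d ∧ b ≠ c ∧ b ≠ d
    · obtain ⟨δ, hδ, hd⟩ := (hAd a b c d h.1 h.2.1 h.2.2.1 h.2.2.2).exists_thickenings (hAk a b)
        (hAk c d).isClosed
      exact ⟨δ, hδ, fun _ _ _ _ => hd⟩
    · exact ⟨1, one_pos, fun h1 h2 h3 h4 => absurd ⟨h1, h2, h3, h4⟩ h⟩
  choose δ hδ hδd using hex
  obtain ⟨ε, hε, hεδ⟩ : ∃ ε : ℝ, 0 < ε ∧ ∀ q, ε ≤ δ q := by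
    refine ⟨Finset.univ.inf' Finset.univ_nonempty δ, ?_, fun q => Finset.inf'_le _ (Finset.mem_univ q)⟩
    rw [Finset.lt_inf'_iff]
    exact fun q _ => hδ q
  have hTd : ∀ a b c d, a ≠ c → a ≠ d → b ≠ c → b ≠ d →
      Disjoint (thickening ε (A a b)) (thickening ε (A c d)) := by
    intro a b c d h1 h2 h3 h4
    exact (hδd (a, b, c, d) h1 h2 h3 h4).mono (thickening_mono (hεδ _) _) (thickening_mono (hεδ _) _)
  -- the points
  choose p hp using fun a : Fin 5 => hs (vert a)
  have hpl : ∀ a b, (p a : EuclideanSpace ℝ (Fin 2)) ∈ thickening ε (A a b) := fun a b =>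
    self_subset_thickening hε _ ⟨p a, by
      change f (p a) ∈ edge a b
      rw [hp]; exact vert_mem_left a b, rfl⟩
  have hpr : ∀ a b, (p b : EuclideanSpace ℝ (Fin 2)) ∈ thickening ε (A a b) := fun a b =>
    self_subset_thickening hε _ ⟨p b, by
      change f (p b) ∈ edge a b
      rw [hp]; exact vert_mem_right a b, rfl⟩
  -- the curves
  have hcurve : ∀ a b : Fin 5, ∃ γ : ℝ → EuclideanSpace ℝ (Fin 2), a < b →
      Continuous γ ∧ γ 0 = p a ∧ γ 1 = p b ∧ ∀ t, γ t ∈ thickening ε (A a b) := by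
    intro a b
    by_cases hab : a < b
    · have hpc : IsPathConnected (thickening ε (A a b)) :=
        (isOpen_thickening.isConnected_iff_isPathConnected).1
          (thickening_connected (hAc a b hab.ne) hε)
      have hj := hpc.joinedIn _ (hpl a b) _ (hpr a b)
      refine ⟨hj.somePath.extend, fun _ => ⟨hj.somePath.continuous_extend, ?_, ?_, ?_⟩⟩
      · exact hj.somePath.extend_zero
      · exact hj.somePath.extend_one
      · intro t
        exact hj.somePath_mem (projIcc (0 : ℝ) 1 zero_le_one t)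
    · exact ⟨fun _ => 0, fun h => absurd h hab⟩
  choose γ hγ using hcurve
  refine Van.no_K5 (fun a => toC (p a)) (fun a b t => toC (γ a b t))
    (fun a b hab => continuous_toC.comp (hγ a b hab).1) (fun a b hab => ?_) (fun a b hab => ?_) ?_
  · rw [(hγ a b hab).2.1]
  · rw [(hγ a b hab).2.2.1]
  · intro a b c d hab hcd h1 h2 h3 h4 s t heq
    have := toC_inj heq
    have m1 := (hγ a b hab).2.2.2 s
    have m2 := (hγ c d hcd).2.2.2 t
    rw [this] at m1
    exact Set.disjoint_left.1 (hTd a b c d h1 h2 h3 h4) m1 m2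

end Pool.Agent.Hx53.NoPlanar
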