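import Mathlib

/-!
# Compact symmetric spaces, two-numbers and mod 2 cohomology: definitions
-/

set_option autoImplicit false

namespace Pool.Agent.Hx53.TN

open scoped ContDiff

/-- The tangent vectors of a set `M` at `x`: the velocity vectors at time `0` of the curves in `M`
which are at `x` at time `0`. For a submanifold this is the tangent space of `M` at `x`. -/
def tangentVectors {E : Type} [NormedAddCommGroup E] [NormedSpace ℝ E] (M : Set E) (x : E) : Set E :=
  {v | ∃ c : ℝ → E, (∀ t, c t ∈ M) ∧ c 0 = x ∧ HasDerivAt c v 0}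

/-- `M` is a smooth embedded submanifold of dimension `d` of `E`: every point of `M` has an open
neighbourhood `U` in `E` such that `M ∩ U` is the image of an open subset `O` of `ℝ^d` under a
smooth map `ψ` that has a smooth left inverse `ρ : U → ℝ^d`. -/
def IsSubmanifold {E : Type} [NormedAddCommGroup E] [NormedSpace ℝ E] (M : Set E) (d : ℕ) : Prop :=
  ∀ x ∈ M, ∃ (U : Set E) (O : Set (EuclideanSpace ℝ (Fin d)))
    (ψ : EuclideanSpace ℝ (Fin d) → E) (ρ : E → EuclideanSpace ℝ (Fin d)),
    IsOpen U ∧ x ∈ U ∧ IsOpen O ∧ ContDiffOn ℝ ∞ ψ O ∧ ContDiffOn ℝ ∞ ρ U ∧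
      ψ '' O = M ∩ U ∧ ∀ u ∈ O, ρ (ψ u) = u

/-- A connected compact Riemannian symmetric space, given as a submanifold `M` of a Euclidean space
`E` with the induced Riemannian metric: `M` is compact and connected, and for every `x ∈ M` a linear
isometry `symm x` of `E` maps `M` into itself, fixes `x` and is `-id` on the tangent space of `M`
at `x`. So `symm x` restricts to the geodesic symmetry of `M` at `x`. -/
structure SymmetricSpace (E : Type) [NormedAddCommGroup E] [InnerProductSpace ℝ E] where
  /-- the set of points -/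
  carrier : Set E
  /-- the dimension -/
  dim : ℕ
  compact : IsCompact carrier
  connected : IsConnected carrier
  submanifold : IsSubmanifold carrier dim
  /-- the geodesic symmetries -/
  symm : E → E ≃ₗᵢ[ℝ] E
  symm_mem : ∀ x ∈ carrier, ∀ y ∈ carrier, symm x y ∈ carrier
  symm_self : ∀ x ∈ carrier, symm x x = x
  symm_tangent : ∀ x ∈ carrier, ∀ v ∈ tangentVectors carrier x, symm x v = -v

/-- `A` is an antipodal subset of `M`: `s_x(y) = y` for all `x, y ∈ A`. -/
def IsAntipodal {E : Type} [NormedAddCommGroup E] [InnerProductSpace ℝ E] (M : SymmetricSpace E)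
    (A : Set E) : Prop :=
  A ⊆ M.carrier ∧ ∀ x ∈ A, ∀ y ∈ A, M.symm x y = y

/-- The two-number of `M`: the maximal (the supremum of the) cardinality of an antipodal set. -/
noncomputable def twoNumber {E : Type} [NormedAddCommGroup E] [InnerProductSpace ℝ E]
    (M : SymmetricSpace E) : ℕ∞ :=
  ⨆ (A : Set E) (_ : IsAntipodal M A), A.encard

/-- the singular `n`-simplices of `X` -/
abbrev Simplex (n : ℕ) (X : Type) [TopologicalSpace X] : Type := C(stdSimplex ℝ (Fin (n + 1)), X)

/-- the `i`-th face of the standard simplex -/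
noncomputable def face (n : ℕ) (i : Fin (n + 2)) :
    C(stdSimplex ℝ (Fin (n + 1)), stdSimplex ℝ (Fin (n + 2))) :=
  ⟨stdSimplex.map (Fin.succAbove i), stdSimplex.continuous_map _⟩

/-- the coboundary operator on the singular cochains with coefficients `ℤ/2` -/
noncomputable def coboundary (n : ℕ) (X : Type) [TopologicalSpace X] :
    (Simplex n X → ZMod 2) →ₗ[ZMod 2] (Simplex (n + 1) X → ZMod 2) where
  toFun f := fun σ => ∑ i : Fin (n + 2), f (σ.comp (face n i))
  map_add' f g := by
    funext σ
    simp [Finset.sum_add_distrib]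
  map_smul' a f := by
    funext σ
    simp [Finset.mul_sum]

/-- the singular `n`-coboundaries -/
noncomputable def coboundaries (X : Type) [TopologicalSpace X] :
    (n : ℕ) → Submodule (ZMod 2) (Simplex n X → ZMod 2)
  | 0 => ⊥
  | n + 1 => LinearMap.range (coboundary n X)

/-- the singular `n`-cocycles -/
noncomputable def cocycles (X : Type) [TopologicalSpace X] (n : ℕ) :
    Submodule (ZMod 2) (Simplex n X → ZMod 2) :=
  LinearMap.ker (coboundary n X)

/-- the singular cohomology `H^n(X; ℤ/2)`: cocycles modulo coboundaries -/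
abbrev Cohomology (n : ℕ) (X : Type) [TopologicalSpace X] : Type :=
  cocycles X n ⧸ (coboundaries X n).comap (cocycles X n).subtype

/-- the total mod 2 Betti number `∑_n dim H^n(X; ℤ/2)` -/
noncomputable def totalBetti (X : Type) [TopologicalSpace X] : ℕ∞ :=
  ∑' n : ℕ, Cardinal.toENat (Module.rank (ZMod 2) (Cohomology n X))

end Pool.Agent.Hx53.TN
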