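import Pool.Agent.Hx53.TNPair

/-!
# The homeomorphism, and the two-number of the product space
-/

set_option autoImplicit false
set_option linter.unusedSectionVars false

namespace Pool.Agent.Hx53.TN

open scoped ContDiff RealInnerProductSpace TensorProduct ComplexConjugate
open Set Module

/-- multiplication of a vector by a complex number -/
noncomputable def act (x : ℂ) (z : C2) : C2 := WithLp.toLp 2 (x * z.fst, x * z.snd)

theorem act_act (x y : ℂ) (z : C2) : act x (act y z) = act (x * y) z := by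
  unfold act
  simp only [WithLp.toLp_fst, WithLp.toLp_snd, mul_assoc]

theorem act_one (z : C2) : act 1 z = z := by
  unfold act
  simp only [one_mul]
  rfl

theorem act_neg (x : ℂ) (z : C2) : act (-x) z = -act x z := by
  unfold act
  simp only [neg_mul]
  rfl

theorem act_neg' (x : ℂ) (z : C2) : act x (-z) = -act x z := by
  unfold act
  simp only [WithLp.neg_fst, WithLp.neg_snd, mul_neg]
  rfl

theorem norm_act {x : ℂ} (hx : ‖x‖ = 1) (z : C2) : ‖act x z‖ = ‖z‖ := by
  have h1 : ‖act x z‖ ^ 2 = ‖z‖ ^ 2 := by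
    rw [WithLp.prod_norm_sq_eq_of_L2, WithLp.prod_norm_sq_eq_of_L2]
    unfold act
    simp only [WithLp.toLp_fst, WithLp.toLp_snd, norm_mul, hx, one_mul]
  exact (sq_eq_sq₀ (norm_nonneg _) (norm_nonneg _)).1 h1

theorem continuous_act : Continuous fun p : ℂ × C2 => act p.1 p.2 := by
  unfold act
  have c1 : Continuous fun p : ℂ × C2 => p.2.fst :=
    (WithLp.fstL 2 ℝ ℂ ℂ).continuous.comp continuous_snd
  have c2 : Continuous fun p : ℂ × C2 => p.2.snd :=
    (WithLp.sndL 2 ℝ ℂ ℂ).continuous.comp continuous_snd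
  exact (WithLp.prodContinuousLinearEquiv 2 ℝ ℂ ℂ).symm.continuous.comp
    ((continuous_fst.mul c1).prodMk (continuous_fst.mul c2))

theorem conj_mul_self {x : ℂ} (hx : ‖x‖ = 1) : conj x * x = 1 := by
  rw [mul_comm, Complex.mul_conj, Complex.normSq_eq_norm_sq, hx]; norm_num

/-- the map of the product of spheres that induces the homeomorphism -/
noncomputable def twist (p : ℂ × R3 × C2) : ℂ × R3 × C2 := (p.1 ^ 2, p.2.1, act (conj p.1) p.2.2)

theorem twist_mem {p : ℂ × R3 × C2} (hp : p ∈ Sph ℂ R3 C2) : twist p ∈ Sph ℂ R3 C2 := by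
  refine ⟨?_, hp.2.1, ?_⟩
  · simp only [twist, norm_pow, hp.1, one_pow]
  · simp only [twist]
    rw [norm_act (by rw [Complex.norm_conj]; exact hp.1)]
    exact hp.2.2

theorem continuous_twist : Continuous twist := by
  unfold twist
  refine (continuous_fst.pow 2).prodMk ((continuous_fst.comp continuous_snd).prodMk ?_)
  exact continuous_act.comp ((Complex.continuous_conj.comp continuous_fst).prodMk
    (continuous_snd.comp continuous_snd))

theorem sge_eq_iff {p q : ℂ × R3 × C2} : sge p = sge q ↔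
    p.1 = q.1 ∧ p.2.1 ⊗ₜ[ℝ] p.2.2 = q.2.1 ⊗ₜ[ℝ] q.2.2 := by
  unfold sge
  constructor
  · intro h
    have h1 := congrArg (fun T : WithLp 2 (ℂ × (R3 ⊗[ℝ] C2)) => T.fst) h
    have h2 := congrArg (fun T : WithLp 2 (ℂ × (R3 ⊗[ℝ] C2)) => T.snd) h
    exact ⟨h1, h2⟩
  · rintro ⟨h1, h2⟩
    rw [h1, h2]

/-- the two maps have the same fibres -/
theorem fibres {p q : ℂ × R3 × C2} (hp : p ∈ Sph ℂ R3 C2) (hq : q ∈ Sph ℂ R3 C2) :
    seg p = seg q ↔ sge (twist p) = sge (twist q) := by
  constructor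
  · intro h
    obtain ⟨a, b, c, ha, hb, hc, habc, h1, h2, h3⟩ := seg_eq hp hq h
    rw [sge_eq_iff]
    simp only [twist]
    rw [h1, h2, h3]
    rcases ha with rfl | rfl <;> rcases hb with rfl | rfl <;> rcases hc with rfl | rfl <;>
      first
      | (exfalso; norm_num at habc; done)
      | simp [act_neg, act_neg', TensorProduct.neg_tmul, TensorProduct.tmul_neg]
  · intro h
    rw [sge_eq_iff] at h
    simp only [twist] at h
    obtain ⟨h1, h2⟩ := h
    have hx : q.1 = p.1 ∨ q.1 = -p.1 := by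
      have : (q.1 - p.1) * (q.1 + p.1) = 0 := by linear_combination -h1
      rcases mul_eq_zero.1 this with h | h
      · exact Or.inl (sub_eq_zero.1 h)
      · exact Or.inr (eq_neg_of_add_eq_zero_left h)
    have hyz := tmul_eq hp.2.1 hq.2.1
      (by rw [norm_act (by rw [Complex.norm_conj]; exact hp.1)]; exact hp.2.2)
      (by rw [norm_act (by rw [Complex.norm_conj]; exact hq.1)]; exact hq.2.2) h2
    have hinv : ∀ r : ℂ × R3 × C2, r ∈ Sph ℂ R3 C2 → act r.1 (act (conj r.1) r.2.2) = r.2.2 := by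
      intro r hr
      rw [act_act, mul_comm, conj_mul_self hr.1, act_one]
    unfold seg
    rcases hyz with ⟨hy, hz⟩ | ⟨hy, hz⟩
    · rcases hx with hx | hx
      · have : q.2.2 = p.2.2 := by
          rw [← hinv q hq, hz, hx, hinv p hp]
        rw [hx, hy, this]
      · have : q.2.2 = -p.2.2 := by
          rw [← hinv q hq, hz, hx, act_neg, hinv p hp]
        rw [hx, hy, this]
        simp [TensorProduct.neg_tmul, TensorProduct.tmul_neg]
    · rcases hx with hx | hx
      · have : q.2.2 = -p.2.2 := by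
          rw [← hinv q hq, hz, hx, act_neg', hinv p hp]
        rw [hx, hy, this]
        simp [TensorProduct.neg_tmul, TensorProduct.tmul_neg]
      · have : q.2.2 = p.2.2 := by
          rw [← hinv q hq, hz, hx, act_neg, act_neg', neg_neg, hinv p hp]
        rw [hx, hy, this]
        simp [TensorProduct.neg_tmul, TensorProduct.tmul_neg]

theorem exists_sqrt {w : ℂ} (hw : ‖w‖ = 1) : ∃ x : ℂ, ‖x‖ = 1 ∧ x ^ 2 = w := by
  obtain ⟨x, hx⟩ := Complex.isSquare w
  have h1 : ‖x‖ * ‖x‖ = 1 := by rw [← norm_mul, ← hx, hw]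
  have h2 : ‖x‖ = 1 := by nlinarith [norm_nonneg x]
  exact ⟨x, h2, by rw [hx, sq]⟩

theorem surj {p : ℂ × R3 × C2} (hp : p ∈ Sph ℂ R3 C2) :
    ∃ q ∈ Sph ℂ R3 C2, sge (twist q) = sge p := by
  obtain ⟨x, hx, hxw⟩ := exists_sqrt hp.1
  refine ⟨(x, p.2.1, act x p.2.2), ⟨hx, hp.2.1, ?_⟩, ?_⟩
  · simp only
    rw [norm_act hx]; exact hp.2.2
  · simp only [twist]
    rw [hxw, act_act, conj_mul_self hx, act_one]

/-- the two spaces are homeomorphic -/
theorem homeo : Nonempty (spaceA.carrier ≃ₜ spaceB.carrier) := by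
  have hA : spaceA.carrier = seg '' Sph ℂ R3 C2 := rfl
  have hB : spaceB.carrier = sge '' Sph ℂ R3 C2 := rfl
  rw [hA, hB]
  have cA : CompactSpace (seg '' Sph ℂ R3 C2) := isCompact_iff_compactSpace.1 (by
    rw [← hA]; exact spaceA.compact)
  have cS : CompactSpace (Sph ℂ R3 C2) := isCompact_iff_compactSpace.1 isCompact_Sph
  let π : Sph ℂ R3 C2 → seg '' Sph ℂ R3 C2 := fun p => ⟨seg p, p, p.2, rfl⟩
  let κ : Sph ℂ R3 C2 → sge '' Sph ℂ R3 C2 := fun p => ⟨sge (twist p), twist p, twist_mem p.2, rfl⟩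
  have hπ : Continuous π := ((modelA ℂ R3 C2).smooth.continuous.comp
    continuous_subtype_val).subtype_mk _
  have hκ : Continuous κ := ((modelB ℂ R3 C2).smooth.continuous.comp
    (continuous_twist.comp continuous_subtype_val)).subtype_mk _
  have sπ : Function.Surjective π := by
    rintro ⟨_, p, hp, rfl⟩
    exact ⟨⟨p, hp⟩, rfl⟩
  have sκ : Function.Surjective κ := by
    rintro ⟨_, p, hp, rfl⟩
    obtain ⟨q, hq, h⟩ := surj hp
    exact ⟨⟨q, hq⟩, Subtype.ext h⟩
  have hfib : ∀ p q, π p = π q ↔ κ p = κ q := by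
    intro p q
    rw [Subtype.ext_iff, Subtype.ext_iff]
    exact fibres p.2 q.2
  have qπ : Topology.IsQuotientMap π := hπ.isClosedMap.isQuotientMap hπ sπ
  choose σ hσ using sπ
  let f : seg '' Sph ℂ R3 C2 → sge '' Sph ℂ R3 C2 := fun T => κ (σ T)
  have hfπ : f ∘ π = κ := by
    funext p
    exact (hfib _ _).1 (hσ (π p))
  have hf : Continuous f := by
    rw [qπ.continuous_iff, hfπ]
    exact hκ
  have inj : Function.Injective f := by
    intro T T' h
    have := (hfib _ _).2 h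
    rwa [hσ, hσ] at this
  have surj : Function.Surjective f := by
    intro T
    obtain ⟨p, hp⟩ := sκ T
    exact ⟨π p, by rw [← hp, ← hfπ]; rfl⟩
  exact ⟨Continuous.homeoOfEquivCompactToT2 (f := Equiv.ofBijective f ⟨inj, surj⟩) hf⟩

theorem sy_neg {E1 : Type} [NormedAddCommGroup E1] [InnerProductSpace ℝ E1] {x : E1}
    (hx : ‖x‖ = 1) (y : E1) : sy (-x) y = sy x y := by
  rw [sy_apply _ (by rwa [norm_neg]), sy_apply _ hx, inner_neg_left]
  simp

/-- the symmetries of the product space -/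
theorem symmB {p q : ℂ × R3 × C2} (hp : p ∈ Sph ℂ R3 C2) :
    spaceB.symm (sge p) (sge q) = sge (sy p.1 q.1, sy p.2.1 q.2.1, sy p.2.2 q.2.2) := by
  obtain ⟨p', hp', he, hs⟩ := (modelB ℂ R3 C2).symmAt_spec (T := sge p) ⟨p, hp, rfl⟩
  change (modelB ℂ R3 C2).symmAt (sge p) (sge q) = _
  rw [hs]
  have h1 := (modelB ℂ R3 C2).sig_F p' q
  change (modelB ℂ R3 C2).sig p' (sge q) = sge _ at h1
  rw [h1]
  obtain ⟨h2, h3⟩ := sge_eq_iff.1 he
  rcases tmul_eq hp'.2.1 hp.2.1 hp'.2.2 hp.2.2 h3 with ⟨h4, h5⟩ | ⟨h4, h5⟩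
  · rw [h2, h4, h5]
  · rw [h2, h4, h5, sy_neg hp'.2.1, sy_neg hp'.2.2]

/-- three orthonormal vectors -/
noncomputable def fv : Fin 3 → C2 := ![WithLp.toLp 2 (1, 0), WithLp.toLp 2 (Complex.I, 0),
  WithLp.toLp 2 (0, 1)]

theorem fv_norm (i : Fin 3) : ‖fv i‖ = 1 := by
  have : ‖fv i‖ ^ 2 = 1 := by
    rw [WithLp.prod_norm_sq_eq_of_L2]
    fin_cases i <;> simp [fv]
  nlinarith [norm_nonneg (fv i)]

theorem fv_inner {i j : Fin 3} (h : i ≠ j) : ⟪fv i, fv j⟫ = 0 := by
  rw [WithLp.prod_inner_apply]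
  fin_cases i <;> fin_cases j <;> simp_all [fv, Complex.inner]

/-- the standard basis vectors -/
noncomputable def ev (i : Fin 3) : R3 := EuclideanSpace.single i 1

theorem ev_norm (i : Fin 3) : ‖ev i‖ = 1 := by simp [ev]

theorem ev_inner {i j : Fin 3} (h : i ≠ j) : ⟪ev i, ev j⟫ = 0 := by
  simp [ev, EuclideanSpace.inner_single_left, h]

/-- signs -/
def sgn (b : Bool) : ℝ := if b then 1 else -1

theorem sgn_cases (b : Bool) : sgn b = 1 ∨ sgn b = -1 := by cases b <;> simp [sgn]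

/-- the twelve points -/
noncomputable def tw (t : Bool × Fin 3 × Bool) : ℂ × R3 × C2 :=
  ((sgn t.1 : ℂ), ev t.2.1, sgn t.2.2 • fv t.2.1)

theorem tw_mem (t : Bool × Fin 3 × Bool) : tw t ∈ Sph ℂ R3 C2 := by
  refine ⟨?_, ev_norm _, ?_⟩
  · simp only [tw]
    rcases sgn_cases t.1 with h | h <;> rw [h] <;> simp
  · simp only [tw]
    rw [norm_smul, fv_norm, mul_one]
    rcases sgn_cases t.2.2 with h | h <;> rw [h] <;> simp

theorem sy_par {E1 : Type} [NormedAddCommGroup E1] [InnerProductSpace ℝ E1] {x y : E1}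
    (hx : ‖x‖ = 1) (h : Par x y) : sy x y = y := by
  have h0 : sy x x = x := by
    rw [sy_apply x hx, real_inner_self_eq_norm_sq, hx, one_pow, mul_one, two_smul]; abel
  rcases h with rfl | rfl
  · exact h0
  · rw [map_neg, h0]

theorem sy_orth {E1 : Type} [NormedAddCommGroup E1] [InnerProductSpace ℝ E1] {x y : E1}
    (hx : ‖x‖ = 1) (h : ⟪x, y⟫ = 0) : sy x y = -y := by
  rw [sy_apply _ hx, h]; simp

theorem tw_symm (s t : Bool × Fin 3 × Bool) :
    spaceB.symm (sge (tw s)) (sge (tw t)) = sge (tw t) := by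
  rw [symmB (tw_mem s), sge_eq_iff]
  have hs := tw_mem s
  constructor
  · apply sy_par hs.1
    simp only [tw]
    rcases sgn_cases s.1 with h | h <;> rcases sgn_cases t.1 with h' | h' <;> rw [h, h'] <;>
      simp [Par]
  · simp only
    by_cases hi : s.2.1 = t.2.1
    · rw [sy_par hs.2.1 (by simp only [tw, hi]; exact Par.refl _), sy_par hs.2.2 (by
        simp only [tw, hi]
        rcases sgn_cases s.2.2 with h | h <;> rcases sgn_cases t.2.2 with h' | h' <;>
          rw [h, h'] <;> simp [Par])]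
    · rw [sy_orth hs.2.1 (by simp only [tw]; exact ev_inner hi), sy_orth hs.2.2 (by
        simp only [tw]
        rw [real_inner_smul_left, real_inner_smul_right, fv_inner hi]; ring)]
      simp [TensorProduct.neg_tmul, TensorProduct.tmul_neg]

theorem sgn_inj {a b : Bool} (h : sgn a = sgn b) : a = b := by
  cases a <;> cases b <;> simp [sgn] at h ⊢ <;> norm_num at h

theorem tw_inj : Function.Injective (fun t => sge (tw t)) := by
  intro s t h
  obtain ⟨h1, h2⟩ := sge_eq_iff.1 h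
  simp only [tw] at h1 h2
  have e1 : s.1 = t.1 := sgn_inj (by exact_mod_cast h1)
  have h3 := tmul_eq (tw_mem s).2.1 (tw_mem t).2.1 (tw_mem s).2.2 (tw_mem t).2.2 h2
  simp only [tw] at h3
  have e2 : s.2.1 = t.2.1 := by
    by_contra hne
    have h4 := ev_inner hne
    have h5 : ⟪ev s.2.1, ev s.2.1⟫ = 1 := by
      rw [real_inner_self_eq_norm_sq, ev_norm]; norm_num
    rcases h3 with ⟨h3, -⟩ | ⟨h3, -⟩
    · rw [h3, h5] at h4; norm_num at h4
    · rw [h3, inner_neg_right, h5] at h4; norm_num at h4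
  have e3 : s.2.2 = t.2.2 := by
    apply sgn_inj
    have hpos : ⟪ev s.2.1 , ev t.2.1⟫ = 1 := by
      rw [← e2, real_inner_self_eq_norm_sq, ev_norm]; norm_num
    have hpos2 : ⟪fv s.2.1 , fv t.2.1⟫ = 1 := by
      rw [← e2, real_inner_self_eq_norm_sq, fv_norm]; norm_num
    rcases h3 with ⟨-, h3⟩ | ⟨h3, -⟩
    · have := congrArg (fun z => ⟪fv s.2.1, z⟫) h3
      simp only [real_inner_smul_right] at this
      rw [hpos2, real_inner_self_eq_norm_sq, fv_norm] at this
      linarith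
    · rw [h3, inner_neg_right, real_inner_self_eq_norm_sq, ev_norm] at hpos
      norm_num at hpos
  exact Prod.ext e1 (Prod.ext e2 e3)

theorem le_two : 12 ≤ twoNumber spaceB := by
  unfold twoNumber
  have hant : IsAntipodal spaceB (range fun t => sge (tw t)) := by
    refine ⟨?_, ?_⟩
    · rintro _ ⟨t, rfl⟩
      exact ⟨tw t, tw_mem t, rfl⟩
    · rintro _ ⟨s, rfl⟩ _ ⟨t, rfl⟩
      exact tw_symm s t
  have hcard : (range fun t => sge (tw t)).encard = 12 := by
    rw [← image_univ, tw_inj.encard_image, Set.encard_univ]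
    simp
  rw [← hcard]
  exact le_iSup₂ (f := fun (A : Set (WithLp 2 (ℂ × (R3 ⊗[ℝ] C2)))) (_ : IsAntipodal spaceB A) =>
    A.encard) _ hant

end Pool.Agent.Hx53.TN
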