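import Pool.Agent.Hx53.TNDefs

/-!
# The total mod 2 Betti number is a homeomorphism invariant
-/

set_option autoImplicit false

namespace Pool.Agent.Hx53.TN

/-- transport of cochains -/
noncomputable def tr {X Y : Type} [TopologicalSpace X] [TopologicalSpace Y] (h : X ≃ₜ Y) (n : ℕ) :
    (Simplex n X → ZMod 2) ≃ₗ[ZMod 2] (Simplex n Y → ZMod 2) :=
  LinearEquiv.funCongrLeft (ZMod 2) (ZMod 2)
    { toFun := fun σ => (⟨h.symm, h.symm.continuous⟩ : C(Y, X)).comp σ
      invFun := fun σ => (⟨h, h.continuous⟩ : C(X, Y)).comp σ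
      left_inv := fun σ => by ext x; simp
      right_inv := fun σ => by ext x; simp }

theorem tr_apply {X Y : Type} [TopologicalSpace X] [TopologicalSpace Y] (h : X ≃ₜ Y) (n : ℕ)
    (f : Simplex n X → ZMod 2) (σ : Simplex n Y) :
    tr h n f σ = f ((⟨h.symm, h.symm.continuous⟩ : C(Y, X)).comp σ) := rfl

theorem tr_coboundary {X Y : Type} [TopologicalSpace X] [TopologicalSpace Y] (h : X ≃ₜ Y) (n : ℕ)
    (f : Simplex n X → ZMod 2) : coboundary n Y (tr h n f) = tr h (n + 1) (coboundary n X f) := by
  funext σ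
  rfl

theorem map_cocycles {X Y : Type} [TopologicalSpace X] [TopologicalSpace Y] (h : X ≃ₜ Y) (n : ℕ) :
    (cocycles X n).map (tr h n).toLinearMap = cocycles Y n := by
  ext f
  rw [Submodule.mem_map_equiv]
  unfold cocycles
  rw [LinearMap.mem_ker, LinearMap.mem_ker]
  obtain ⟨g, rfl⟩ := (tr h n).surjective f
  rw [LinearEquiv.symm_apply_apply, tr_coboundary, LinearEquiv.map_eq_zero_iff]

theorem map_coboundaries {X Y : Type} [TopologicalSpace X] [TopologicalSpace Y] (h : X ≃ₜ Y) :
    ∀ n : ℕ, (coboundaries X n).map (tr h n).toLinearMap = coboundaries Y n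
  | 0 => by simp [coboundaries]
  | n + 1 => by
    ext f
    simp only [coboundaries]
    constructor
    · rintro ⟨_, ⟨g, rfl⟩, rfl⟩
      exact ⟨tr h n g, tr_coboundary h n g⟩
    · rintro ⟨g, rfl⟩
      obtain ⟨g, rfl⟩ := (tr h n).surjective g
      exact ⟨coboundary n X g, ⟨g, rfl⟩, (tr_coboundary h n g).symm⟩

/-- homeomorphic spaces have isomorphic cohomology -/
theorem rank_cohomology {X Y : Type} [TopologicalSpace X] [TopologicalSpace Y] (h : X ≃ₜ Y)
    (n : ℕ) : Module.rank (ZMod 2) (Cohomology n X) = Module.rank (ZMod 2) (Cohomology n Y) := by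
  refine LinearEquiv.rank_eq (Submodule.Quotient.equiv _ _
    ((tr h n).ofSubmodules _ _ (map_cocycles h n)) ?_)
  ext ⟨f, hf⟩
  rw [Submodule.mem_map_equiv]
  simp only [Submodule.mem_comap, Submodule.subtype_apply]
  rw [← map_coboundaries h n, Submodule.mem_map_equiv]
  rfl

theorem totalBetti_eq {X Y : Type} [TopologicalSpace X] [TopologicalSpace Y] (h : X ≃ₜ Y) :
    totalBetti X = totalBetti Y := by
  unfold totalBetti
  simp only [rank_cohomology h]

/-- sanity check: the coboundary of a coboundary is zero -/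
theorem coboundary_coboundary (n : ℕ) (X : Type) [TopologicalSpace X] (f : Simplex n X → ZMod 2) :
    coboundary (n + 1) X (coboundary n X f) = 0 := by
  funext σ
  change ∑ i : Fin (n + 3), ∑ j : Fin (n + 2), f ((σ.comp (face (n + 1) i)).comp (face n j)) = 0
  rw [← Finset.sum_product']
  refine Finset.sum_involution (fun p _ => (p.1.succAbove p.2, p.2.predAbove p.1)) ?_ ?_ ?_ ?_
  · rintro ⟨i, j⟩ -
    have : (σ.comp (face (n + 1) (i.succAbove j))).comp (face n (j.predAbove i)) =
        (σ.comp (face (n + 1) i)).comp (face n j) := by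
      ext x
      simp only [ContinuousMap.comp_apply]
      congr 1
      change stdSimplex.map (Fin.succAbove (i.succAbove j))
        (stdSimplex.map (Fin.succAbove (j.predAbove i)) x) =
        stdSimplex.map (Fin.succAbove i) (stdSimplex.map (Fin.succAbove j) x)
      rw [stdSimplex.map_comp_apply, stdSimplex.map_comp_apply]
      congr 1
      funext k
      exact Fin.succAbove_succAbove_succAbove_predAbove i j k
    simp only [this]
    exact CharTwo.add_self_eq_zero _
  · rintro ⟨i, j⟩ - _ h
    exact Fin.succAbove_ne i j (congrArg Prod.fst h)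
  · intro p _
    exact Finset.mem_univ _
  · rintro ⟨i, j⟩ -
    simp only [Fin.succAbove_succAbove_predAbove, Fin.predAbove_predAbove_succAbove]

end Pool.Agent.Hx53.TN
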