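import Pool.Agent.Hx53.TNDefs

/-!
# Symmetric spaces covered by a product of three spheres
-/

set_option autoImplicit false
set_option linter.unusedSectionVars false

namespace Pool.Agent.Hx53.TN

open scoped ContDiff RealInnerProductSpace
open Set Module

variable {E1 E2 E3 E : Type} [NormedAddCommGroup E1] [InnerProductSpace ℝ E1]
  [NormedAddCommGroup E2] [InnerProductSpace ℝ E2]
  [NormedAddCommGroup E3] [InnerProductSpace ℝ E3]
  [NormedAddCommGroup E] [InnerProductSpace ℝ E]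

/-- the reflection in the line through `x` -/
noncomputable def sy {E1 : Type} [NormedAddCommGroup E1] [InnerProductSpace ℝ E1] (x : E1) :
    E1 ≃ₗᵢ[ℝ] E1 := (Submodule.span ℝ {x}).reflection

theorem sy_apply (x : E1) (hx : ‖x‖ = 1) (y : E1) : sy x y = (2 * ⟪x, y⟫) • x - y := by
  unfold sy
  rw [Submodule.reflection_singleton_apply, hx]
  simp [smul_smul, ← Nat.cast_smul_eq_nsmul ℝ]

/-- triples of unit vectors -/
def Sph (E1 E2 E3 : Type) [NormedAddCommGroup E1] [NormedAddCommGroup E2]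
    [NormedAddCommGroup E3] : Set (E1 × E2 × E3) := {p | ‖p.1‖ = 1 ∧ ‖p.2.1‖ = 1 ∧ ‖p.2.2‖ = 1}

/-- the three inner products are positive -/
def Pos (p q : E1 × E2 × E3) : Prop := 0 < ⟪p.1, q.1⟫ ∧ 0 < ⟪p.2.1, q.2.1⟫ ∧ 0 < ⟪p.2.2, q.2.2⟫

/-- a symmetric space covered by a product of three spheres -/
structure Model (E1 E2 E3 E : Type) [NormedAddCommGroup E1] [InnerProductSpace ℝ E1]
  [NormedAddCommGroup E2] [InnerProductSpace ℝ E2]
  [NormedAddCommGroup E3] [InnerProductSpace ℝ E3]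
  [NormedAddCommGroup E] [InnerProductSpace ℝ E] where
  /-- the covering -/
  F : E1 × E2 × E3 → E
  smooth : ContDiff ℝ ∞ F
  /-- the symmetries -/
  sig : E1 × E2 × E3 → E ≃ₗᵢ[ℝ] E
  sig_F : ∀ p q, sig p (F q) = F (sy p.1 q.1, sy p.2.1 q.2.1, sy p.2.2 q.2.2)
  /-- the neighbourhoods -/
  U : E1 × E2 × E3 → Set E
  U_open : ∀ p, IsOpen (U p)
  /-- the local inverses -/
  R : E1 × E2 × E3 → E → E1 × E2 × E3
  R_smooth : ∀ p, ContDiffOn ℝ ∞ (R p) (U p)
  pos : ∀ p ∈ Sph E1 E2 E3, ∀ q ∈ Sph E1 E2 E3, F q ∈ U p →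
    ∃ q' ∈ Sph E1 E2 E3, F q' = F q ∧ Pos p q'
  pos_mem : ∀ p ∈ Sph E1 E2 E3, ∀ q ∈ Sph E1 E2 E3, Pos p q → F q ∈ U p ∧
    R p (F q) = (⟪p.1, q.1⟫⁻¹ • q.1, ⟪p.2.1, q.2.1⟫⁻¹ • q.2.1, ⟪p.2.2, q.2.2⟫⁻¹ • q.2.2)

/-- normalisation of a vector -/
noncomputable def nz {E1 : Type} [NormedAddCommGroup E1] [InnerProductSpace ℝ E1] (x : E1) : E1 :=
  ‖x‖⁻¹ • x

theorem ne_zero_of_inner {p x : E1} (h : ⟪p, x⟫ = 1) : x ≠ 0 := by
  rintro rfl
  simp at h

theorem norm_nz {x : E1} (hx : x ≠ 0) : ‖nz x‖ = 1 := by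
  unfold nz
  rw [norm_smul, norm_inv, norm_norm, inv_mul_cancel₀ (norm_ne_zero_iff.2 hx)]

theorem inner_nz {p x : E1} : ⟪p, nz x⟫ = ‖x‖⁻¹ * ⟪p, x⟫ := by
  unfold nz
  rw [real_inner_smul_right]

/-- the tangent space of the sphere -/
noncomputable abbrev Tn (p : E1) : Submodule ℝ E1 := (Submodule.span ℝ {p})ᗮ

theorem inner_add_Tn {p : E1} (hp : ‖p‖ = 1) (u : Tn p) : ⟪p, p + (u : E1)⟫ = 1 := by
  rw [inner_add_right, real_inner_self_eq_norm_sq, hp]
  have : ⟪p, (u : E1)⟫ = 0 := Submodule.mem_orthogonal_singleton_iff_inner_right.1 u.2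
  rw [this]; norm_num

theorem sy_add {p : E1} (hp : ‖p‖ = 1) (u : Tn p) : sy p (p + (u : E1)) = p + ((-u : Tn p) : E1) := by
  rw [sy_apply p hp, inner_add_Tn hp, Submodule.coe_neg, mul_one, two_smul]
  abel

theorem norm_add_neg {p : E1} (hp : ‖p‖ = 1) (u : Tn p) : ‖p + ((-u : Tn p) : E1)‖ = ‖p + (u : E1)‖ := by
  rw [← sy_add hp, LinearIsometryEquiv.norm_map]

theorem sy_nz {p : E1} (hp : ‖p‖ = 1) (u : Tn p) :
    sy p (nz (p + (u : E1))) = nz (p + ((-u : Tn p) : E1)) := by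
  unfold nz
  rw [map_smul, sy_add hp, norm_add_neg hp]

theorem nz_self {p : E1} (hp : ‖p‖ = 1) : nz p = p := by
  unfold nz; rw [hp]; simp

variable [FiniteDimensional ℝ E1] [FiniteDimensional ℝ E2] [FiniteDimensional ℝ E3]

theorem contDiff_nz {p : E1} (hp : ‖p‖ = 1) : ContDiff ℝ ∞ (fun u : Tn p => nz (p + (u : E1))) := by
  unfold nz
  have h1 : ContDiff ℝ ∞ (fun u : Tn p => p + (u : E1)) :=
    contDiff_const.add (Tn p).subtypeL.contDiff
  refine ContDiff.smul (ContDiff.inv (h1.norm ℝ fun u => ?_) fun u => ?_) h1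
  · exact ne_zero_of_inner (inner_add_Tn hp u)
  · exact norm_ne_zero_iff.2 (ne_zero_of_inner (inner_add_Tn hp u))

/-- the projection to the tangent space -/
noncomputable def prj (p : E1) : E1 →L[ℝ] Tn p := (Tn p).orthogonalProjectionOnto

theorem prj_add {p : E1} (u : Tn p) : prj p (p + (u : E1)) = u := by
  unfold prj
  rw [map_add, Submodule.orthogonalProjectionOnto_mem_subspace_eq_self]
  rw [Submodule.orthogonalProjectionOnto_orthogonalComplement_singleton_eq_zero, zero_add]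

namespace Model

variable (m : Model E1 E2 E3 E)

/-- the parameter space of the charts -/
abbrev W (p : E1 × E2 × E3) : Type := Tn p.1 × Tn p.2.1 × Tn p.2.2

/-- the point of the product of spheres -/
noncomputable def pt (p : E1 × E2 × E3) (u : W p) : E1 × E2 × E3 :=
  (nz (p.1 + u.1), nz (p.2.1 + u.2.1), nz (p.2.2 + u.2.2))

/-- the chart -/
noncomputable def psi (p : E1 × E2 × E3) (u : W p) : E := m.F (pt p u)

/-- the inverse of the chart -/
noncomputable def rho (p : E1 × E2 × E3) (T : E) : W p :=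
  (prj p.1 (m.R p T).1, prj p.2.1 (m.R p T).2.1, prj p.2.2 (m.R p T).2.2)

variable {m} {p : E1 × E2 × E3}

theorem pt_mem (hp : p ∈ Sph E1 E2 E3) (u : W p) : pt p u ∈ Sph E1 E2 E3 :=
  ⟨norm_nz (ne_zero_of_inner (inner_add_Tn hp.1 u.1)),
    norm_nz (ne_zero_of_inner (inner_add_Tn hp.2.1 u.2.1)),
    norm_nz (ne_zero_of_inner (inner_add_Tn hp.2.2 u.2.2))⟩

theorem pt_pos (hp : p ∈ Sph E1 E2 E3) (u : W p) : Pos p (pt p u) := by
  refine ⟨?_, ?_, ?_⟩
  · simp only [pt]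
    rw [inner_nz, inner_add_Tn hp.1, mul_one, inv_pos, norm_pos_iff]
    exact ne_zero_of_inner (inner_add_Tn hp.1 u.1)
  · simp only [pt]
    rw [inner_nz, inner_add_Tn hp.2.1, mul_one, inv_pos, norm_pos_iff]
    exact ne_zero_of_inner (inner_add_Tn hp.2.1 u.2.1)
  · simp only [pt]
    rw [inner_nz, inner_add_Tn hp.2.2, mul_one, inv_pos, norm_pos_iff]
    exact ne_zero_of_inner (inner_add_Tn hp.2.2 u.2.2)

theorem quot_nz {p : E1} (hp : ‖p‖ = 1) (u : Tn p) :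
    ⟪p, nz (p + (u : E1))⟫⁻¹ • nz (p + (u : E1)) = p + (u : E1) := by
  have h := ne_zero_of_inner (inner_add_Tn hp u)
  rw [inner_nz, inner_add_Tn hp, mul_one, inv_inv]
  unfold nz
  rw [smul_smul, mul_inv_cancel₀ (norm_ne_zero_iff.2 h), one_smul]

theorem rho_psi (hp : p ∈ Sph E1 E2 E3) (u : W p) : m.rho p (m.psi p u) = u := by
  unfold rho psi
  rw [(m.pos_mem p hp _ (pt_mem hp u) (pt_pos hp u)).2]
  simp only [pt]
  rw [quot_nz hp.1, quot_nz hp.2.1, quot_nz hp.2.2, prj_add, prj_add, prj_add]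

theorem pt_zero (hp : p ∈ Sph E1 E2 E3) : pt p 0 = p := by
  unfold pt
  simp only [Prod.fst_zero, Prod.snd_zero, Submodule.coe_zero, add_zero]
  rw [nz_self hp.1, nz_self hp.2.1, nz_self hp.2.2]

theorem psi_zero (hp : p ∈ Sph E1 E2 E3) : m.psi p 0 = m.F p := by
  unfold psi; rw [pt_zero hp]

theorem Pos_self (hp : p ∈ Sph E1 E2 E3) : Pos p p := by
  have h := pt_pos hp 0
  rwa [pt_zero hp] at h

theorem psi_smooth (hp : p ∈ Sph E1 E2 E3) : ContDiff ℝ ∞ (m.psi p) := by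
  unfold psi
  refine m.smooth.comp ?_
  unfold pt
  refine ContDiff.prodMk ?_ (ContDiff.prodMk ?_ ?_)
  · exact (contDiff_nz hp.1).comp contDiff_fst
  · exact (contDiff_nz hp.2.1).comp (contDiff_fst.comp contDiff_snd)
  · exact (contDiff_nz hp.2.2).comp (contDiff_snd.comp contDiff_snd)

theorem rho_smooth : ContDiffOn ℝ ∞ (m.rho p) (m.U p) := by
  unfold rho
  have h := m.R_smooth p
  refine ContDiffOn.prodMk ?_ (ContDiffOn.prodMk ?_ ?_)
  · exact (prj p.1).contDiff.comp_contDiffOn h.fst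
  · exact (prj p.2.1).contDiff.comp_contDiffOn h.snd.fst
  · exact (prj p.2.2).contDiff.comp_contDiffOn h.snd.snd

theorem sig_psi (hp : p ∈ Sph E1 E2 E3) (u : W p) : m.sig p (m.psi p u) = m.psi p (-u) := by
  unfold psi
  rw [m.sig_F]
  unfold pt
  simp only [Prod.fst_neg, Prod.snd_neg]
  rw [sy_nz hp.1, sy_nz hp.2.1, sy_nz hp.2.2]

theorem exists_u {E1 : Type} [NormedAddCommGroup E1] [InnerProductSpace ℝ E1] {p q : E1}
    (hp : ‖p‖ = 1) (hq : ‖q‖ = 1) (h : 0 < ⟪p, q⟫) : ∃ u : Tn p, nz (p + (u : E1)) = q := by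
  refine ⟨⟨⟪p, q⟫⁻¹ • q - p, ?_⟩, ?_⟩
  · rw [Submodule.mem_orthogonal_singleton_iff_inner_right, inner_sub_right,
      real_inner_smul_right, inv_mul_cancel₀ h.ne', real_inner_self_eq_norm_sq, hp]
    norm_num
  · simp only [add_sub_cancel]
    unfold nz
    rw [norm_smul, hq, mul_one, Real.norm_of_nonneg (inv_nonneg.2 h.le), inv_inv, smul_smul,
      mul_inv_cancel₀ h.ne', one_smul]

theorem image_psi (hp : p ∈ Sph E1 E2 E3) :
    range (m.psi p) = (m.F '' Sph E1 E2 E3) ∩ m.U p := by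
  ext T
  constructor
  · rintro ⟨u, rfl⟩
    exact ⟨⟨_, pt_mem hp u, rfl⟩, (m.pos_mem p hp _ (pt_mem hp u) (pt_pos hp u)).1⟩
  · rintro ⟨⟨q, hq, rfl⟩, hU⟩
    obtain ⟨q', hq', hF, h1, h2, h3⟩ := m.pos p hp q hq hU
    obtain ⟨u1, hu1⟩ := exists_u hp.1 hq'.1 h1
    obtain ⟨u2, hu2⟩ := exists_u hp.2.1 hq'.2.1 h2
    obtain ⟨u3, hu3⟩ := exists_u hp.2.2 hq'.2.2 h3
    refine ⟨(u1, u2, u3), ?_⟩
    unfold psi pt
    simp only
    rw [hu1, hu2, hu3, ← hF]

theorem finrank_Tn {p : E1} (hp : ‖p‖ = 1) : finrank ℝ (Tn p) = finrank ℝ E1 - 1 := by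
  have h := Submodule.finrank_add_finrank_orthogonal (𝕜 := ℝ) (Submodule.span ℝ {p})
  have hp0 : p ≠ 0 := by rintro rfl; simp at hp
  rw [finrank_span_singleton hp0] at h
  rw [← h]
  exact (Nat.add_sub_cancel_left _ _).symm

/-- the dimension -/
noncomputable def dm (E1 E2 E3 : Type) [NormedAddCommGroup E1] [InnerProductSpace ℝ E1]
  [NormedAddCommGroup E2] [InnerProductSpace ℝ E2]
  [NormedAddCommGroup E3] [InnerProductSpace ℝ E3] : ℕ :=
  (finrank ℝ E1 - 1) + ((finrank ℝ E2 - 1) + (finrank ℝ E3 - 1))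

theorem isSubmanifold (m : Model E1 E2 E3 E) :
    IsSubmanifold (m.F '' Sph E1 E2 E3) (dm E1 E2 E3) := by
  rintro _ ⟨p, hp, rfl⟩
  have hfr : finrank ℝ (EuclideanSpace ℝ (Fin (dm E1 E2 E3))) = finrank ℝ (W p) := by
    rw [finrank_euclideanSpace, Fintype.card_fin, finrank_prod, finrank_prod, finrank_Tn hp.1,
      finrank_Tn hp.2.1, finrank_Tn hp.2.2]
    rfl
  let e : EuclideanSpace ℝ (Fin (dm E1 E2 E3)) ≃L[ℝ] W p := ContinuousLinearEquiv.ofFinrankEq hfr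
  refine ⟨m.U p, univ, fun u => m.psi p (e u), fun T => e.symm (m.rho p T), m.U_open p,
    (m.pos_mem p hp p hp (Pos_self hp)).1, isOpen_univ,
    ((psi_smooth hp).comp e.contDiff).contDiffOn, e.symm.contDiff.comp_contDiffOn rho_smooth,
    ?_, ?_⟩
  · rw [image_univ, ← image_psi hp]
    exact e.surjective.range_comp (m.psi p)
  · intro u _
    simp only
    rw [rho_psi hp, e.symm_apply_apply]

theorem tangent (m : Model E1 E2 E3 E) (hp : p ∈ Sph E1 E2 E3) {v : E}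
    (hv : v ∈ tangentVectors (m.F '' Sph E1 E2 E3) (m.F p)) : m.sig p v = -v := by
  obtain ⟨c, hc, hc0, hcd⟩ := hv
  have hU : m.F p ∈ m.U p := (m.pos_mem p hp p hp (Pos_self hp)).1
  have hUn : m.U p ∈ nhds (c 0) := by rw [hc0]; exact (m.U_open p).mem_nhds hU
  have hcc : ContinuousAt c 0 := hcd.continuousAt
  have hev : ∀ᶠ t in nhds (0 : ℝ), c t ∈ m.U p := hcc hUn
  have heq : ∀ᶠ t in nhds (0 : ℝ), c t = m.psi p (m.rho p (c t)) := by
    filter_upwards [hev] with t ht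
    have : c t ∈ range (m.psi p) := by rw [image_psi hp]; exact ⟨hc t, ht⟩
    obtain ⟨u, hu⟩ := this
    rw [← hu, rho_psi hp]
  have hρd : DifferentiableAt ℝ (m.rho p) (c 0) :=
    ((rho_smooth.contDiffAt hUn).differentiableAt (by simp))
  have hψd : DifferentiableAt ℝ (m.psi p) 0 := ((psi_smooth hp).differentiable (by simp)) 0
  have hρ0 : m.rho p (c 0) = 0 := by rw [hc0, ← psi_zero hp, rho_psi hp]
  set h : W p := fderiv ℝ (m.rho p) (c 0) v with hh
  have h1 : HasDerivAt (fun t => m.rho p (c t)) h 0 := hρd.hasFDerivAt.comp_hasDerivAt 0 hcd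
  have h2 : HasDerivAt (fun t => m.psi p (m.rho p (c t))) (fderiv ℝ (m.psi p) 0 h) 0 := by
    have : HasFDerivAt (m.psi p) (fderiv ℝ (m.psi p) 0) (m.rho p (c 0)) := by
      rw [hρ0]; exact hψd.hasFDerivAt
    exact this.comp_hasDerivAt 0 h1
  have hv' : v = fderiv ℝ (m.psi p) 0 h := by
    have h3 : HasDerivAt c (fderiv ℝ (m.psi p) 0 h) 0 := h2.congr_of_eventuallyEq heq
    exact hcd.unique h3
  have h4 : HasDerivAt (fun t : ℝ => m.sig p (m.psi p (t • h))) (m.sig p (fderiv ℝ (m.psi p) 0 h)) 0 := by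
    have h5 : HasDerivAt (fun t : ℝ => t • h) h 0 := by
      simpa using (hasDerivAt_id (0 : ℝ)).smul_const h
    have h6 : HasFDerivAt (m.psi p) (fderiv ℝ (m.psi p) 0) ((0 : ℝ) • h) := by
      rw [zero_smul]; exact hψd.hasFDerivAt
    have h9 : HasDerivAt (fun t : ℝ => m.psi p (t • h)) (fderiv ℝ (m.psi p) 0 h) 0 :=
      HasFDerivAt.comp_hasDerivAt (f := fun t : ℝ => t • h) (0 : ℝ) h6 h5
    exact ((m.sig p).toContinuousLinearEquiv.toContinuousLinearMap.hasFDerivAt).comp_hasDerivAt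
      (0 : ℝ) h9
  have h7 : HasDerivAt (fun t : ℝ => m.sig p (m.psi p (t • h))) (fderiv ℝ (m.psi p) 0 (-h)) 0 := by
    have e : (fun t : ℝ => m.sig p (m.psi p (t • h))) = fun t => m.psi p (t • (-h)) := by
      funext t
      rw [sig_psi hp, smul_neg]
    rw [e]
    have h5 : HasDerivAt (fun t : ℝ => t • (-h)) (-h) 0 := by
      simpa using (hasDerivAt_id (0 : ℝ)).smul_const (-h)
    have h6 : HasFDerivAt (m.psi p) (fderiv ℝ (m.psi p) 0) ((0 : ℝ) • (-h)) := by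
      rw [zero_smul]; exact hψd.hasFDerivAt
    exact HasFDerivAt.comp_hasDerivAt (f := fun t : ℝ => t • (-h)) (0 : ℝ) h6 h5
  have h8 := h4.unique h7
  rw [hv', h8, map_neg]

end Model

end Pool.Agent.Hx53.TN
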