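import Pool.Agent.Hx53.TNSpaces
import Pool.Agent.Hx53.TNInv

/-!
# Two homeomorphic symmetric spaces with different two-numbers
-/

set_option autoImplicit false
set_option linter.unusedSectionVars false

namespace Pool.Agent.Hx53.TN

open scoped ContDiff RealInnerProductSpace TensorProduct ComplexConjugate
open Set Module

section general

variable {E1 E2 E3 E : Type} [NormedAddCommGroup E1] [InnerProductSpace ℝ E1]
  [NormedAddCommGroup E2] [InnerProductSpace ℝ E2]
  [NormedAddCommGroup E3] [InnerProductSpace ℝ E3]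
  [NormedAddCommGroup E] [InnerProductSpace ℝ E]
  [FiniteDimensional ℝ E1] [FiniteDimensional ℝ E2] [FiniteDimensional ℝ E3]

theorem abs_inner_le {x y : E1} (hx : ‖x‖ = 1) (hy : ‖y‖ = 1) : |⟪x, y⟫| ≤ 1 := by
  have := abs_real_inner_le_norm x y
  rwa [hx, hy, mul_one] at this

theorem eq_of_inner {x y : E1} (hx : ‖x‖ = 1) (hy : ‖y‖ = 1) (h : |⟪x, y⟫| = 1) :
    (⟪x, y⟫ = 1 ∨ ⟪x, y⟫ = -1) ∧ y = ⟪x, y⟫ • x := by
  rcases eq_or_eq_neg_of_abs_eq h with h | h
  · refine ⟨Or.inl h, ?_⟩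
    rw [h, one_smul]
    exact ((inner_eq_one_iff_of_norm_eq_one (𝕜 := ℝ) hx hy).1 h).symm
  · refine ⟨Or.inr h, ?_⟩
    rw [h, neg_one_smul]
    have h2 : ⟪x, -y⟫ = 1 := by rw [inner_neg_right, h, neg_neg]
    have h3 := (inner_eq_one_iff_of_norm_eq_one (𝕜 := ℝ) hx (by rwa [norm_neg])).1 h2
    rw [h3, neg_neg]

theorem abs_one_of_mul {a b c : ℝ} (ha : |a| ≤ 1) (hb : |b| ≤ 1) (hc : |c| ≤ 1)
    (h : a * (b * c) = 1) : |a| = 1 ∧ |b| = 1 ∧ |c| = 1 := by
  have h1 : |a| * (|b| * |c|) = 1 := by rw [← abs_mul, ← abs_mul, h, abs_one]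
  have p1 := abs_nonneg a
  have p2 := abs_nonneg b
  have p3 := abs_nonneg c
  have q1 : |b| * |c| ≤ 1 := mul_le_one₀ hb p3 hc
  have q2 : 0 ≤ |b| * |c| := by positivity
  have r1 : |a| = 1 := by nlinarith
  have r2 : |b| * |c| = 1 := by rw [r1, one_mul] at h1; exact h1
  have r3 : |b| = 1 := by nlinarith
  have r4 : |c| = 1 := by rw [r3, one_mul] at r2; exact r2
  exact ⟨r1, r3, r4⟩

theorem seg_eq {p q : E1 × E2 × E3} (hp : p ∈ Sph E1 E2 E3) (hq : q ∈ Sph E1 E2 E3)
    (h : seg p = seg q) : ∃ a b c : ℝ, (a = 1 ∨ a = -1) ∧ (b = 1 ∨ b = -1) ∧ (c = 1 ∨ c = -1) ∧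
      a * (b * c) = 1 ∧ q.1 = a • p.1 ∧ q.2.1 = b • p.2.1 ∧ q.2.2 = c • p.2.2 := by
  have h1 : ⟪p.1, q.1⟫ * (⟪p.2.1, q.2.1⟫ * ⟪p.2.2, q.2.2⟫) = 1 := by
    rw [← seg_inner, ← h, seg_inner, real_inner_self_eq_norm_sq, real_inner_self_eq_norm_sq,
      real_inner_self_eq_norm_sq, hp.1, hp.2.1, hp.2.2]
    norm_num
  obtain ⟨r1, r2, r3⟩ := abs_one_of_mul (abs_inner_le hp.1 hq.1) (abs_inner_le hp.2.1 hq.2.1)
    (abs_inner_le hp.2.2 hq.2.2) h1
  obtain ⟨s1, t1⟩ := eq_of_inner hp.1 hq.1 r1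
  obtain ⟨s2, t2⟩ := eq_of_inner hp.2.1 hq.2.1 r2
  obtain ⟨s3, t3⟩ := eq_of_inner hp.2.2 hq.2.2 r3
  exact ⟨_, _, _, s1, s2, s3, h1, t1, t2, t3⟩

theorem tmul_eq {x x' : E2} {y y' : E3} (hx : ‖x‖ = 1) (hx' : ‖x'‖ = 1) (hy : ‖y‖ = 1)
    (hy' : ‖y'‖ = 1) (h : x ⊗ₜ[ℝ] y = x' ⊗ₜ[ℝ] y') :
    (x' = x ∧ y' = y) ∨ (x' = -x ∧ y' = -y) := by
  have h1 : ⟪x, x'⟫ * ⟪y, y'⟫ = 1 := by
    rw [← TensorProduct.inner_tmul, ← h, TensorProduct.inner_tmul, real_inner_self_eq_norm_sq,
      real_inner_self_eq_norm_sq, hx, hy]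
    norm_num
  obtain ⟨-, r2, r3⟩ := abs_one_of_mul (a := 1) (by simp) (abs_inner_le hx hx')
    (abs_inner_le hy hy') (by rw [one_mul]; exact h1)
  obtain ⟨s2, t2⟩ := eq_of_inner hx hx' r2
  obtain ⟨s3, t3⟩ := eq_of_inner hy hy' r3
  rcases s2 with s2 | s2
  · have s4 : ⟪y, y'⟫ = 1 := by rw [s2, one_mul] at h1; exact h1
    left
    rw [s2, one_smul] at t2
    rw [s4, one_smul] at t3
    exact ⟨t2, t3⟩
  · have s4 : ⟪y, y'⟫ = -1 := by rw [s2] at h1; linarith
    right
    rw [s2, neg_one_smul] at t2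
    rw [s4, neg_one_smul] at t3
    exact ⟨t2, t3⟩

/-- parallel or orthogonal -/
theorem par_or_orth {x y : E1} (hx : ‖x‖ = 1) (hy : ‖y‖ = 1) {a : ℝ} (ha : a = 1 ∨ a = -1)
    (h : y = a • sy x y) :
    (a = 1 ∧ (y = x ∨ y = -x)) ∨ (a = -1 ∧ ⟪x, y⟫ = 0) := by
  rw [sy_apply x hx] at h
  rcases ha with rfl | rfl
  · left
    refine ⟨rfl, ?_⟩
    rw [one_smul] at h
    have h1 : (2 : ℝ) • y = (2 * ⟪x, y⟫) • x := by
      nth_rewrite 1 [two_smul, h]
      abel
    have h2 : y = ⟪x, y⟫ • x := by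
      have := congrArg (fun z => (1 / 2 : ℝ) • z) h1
      simp only [smul_smul] at this
      rw [show (1 / 2 : ℝ) * 2 = 1 by norm_num, one_smul,
        show (1 / 2 : ℝ) * (2 * ⟪x, y⟫) = ⟪x, y⟫ by ring] at this
      exact this
    have h3 : |⟪x, y⟫| = 1 := by
      have := congrArg norm h2
      rw [norm_smul, hx, hy, mul_one] at this
      rw [← Real.norm_eq_abs]; exact this.symm
    rcases (eq_of_inner hx hy h3).1 with h4 | h4
    · left; rw [h4, one_smul] at h2; exact h2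
    · right; rw [h4, neg_one_smul] at h2; exact h2
  · right
    refine ⟨rfl, ?_⟩
    rw [neg_one_smul] at h
    have h1 : (2 * ⟪x, y⟫) • x = 0 := by
      have h2 : y = y - (2 * ⟪x, y⟫) • x := by
        nth_rewrite 1 [h]; abel
      have h3 := sub_eq_self.1 h2.symm
      exact h3
    have hx0 : x ≠ 0 := by rintro rfl; simp at hx
    rcases smul_eq_zero.1 h1 with h2 | h2
    · linarith
    · exact absurd h2 hx0

/-- the relation between the triples of two points of an antipodal set -/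
theorem relation {p q : E1 × E2 × E3} (hp : p ∈ Sph E1 E2 E3) (hq : q ∈ Sph E1 E2 E3)
    (h : (modelA E1 E2 E3).sig p (seg q) = seg q) (hne : seg q ≠ seg p) (hne' : seg q ≠ -seg p) :
    ((q.1 = p.1 ∨ q.1 = -p.1) ∧ ⟪p.2.1, q.2.1⟫ = 0 ∧ ⟪p.2.2, q.2.2⟫ = 0) ∨
    (⟪p.1, q.1⟫ = 0 ∧ (q.2.1 = p.2.1 ∨ q.2.1 = -p.2.1) ∧ ⟪p.2.2, q.2.2⟫ = 0) ∨
    (⟪p.1, q.1⟫ = 0 ∧ ⟪p.2.1, q.2.1⟫ = 0 ∧ (q.2.2 = p.2.2 ∨ q.2.2 = -p.2.2)) := by
  have h0 := (modelA E1 E2 E3).sig_F p q
  change (modelA E1 E2 E3).sig p (seg q) = seg _ at h0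
  rw [h] at h0
  obtain ⟨a, b, c, ha, hb, hc, habc, h1, h2, h3⟩ := seg_eq (sy_mem p hq) hq h0.symm
  simp only at h1 h2 h3
  rcases par_or_orth hp.1 hq.1 ha h1 with ⟨rfl, k1⟩ | ⟨rfl, k1⟩
  · rcases par_or_orth hp.2.1 hq.2.1 hb h2 with ⟨rfl, k2⟩ | ⟨rfl, k2⟩
    · rcases par_or_orth hp.2.2 hq.2.2 hc h3 with ⟨rfl, k3⟩ | ⟨rfl, k3⟩
      · exfalso
        have : seg q = seg p ∨ seg q = -seg p := by
          unfold seg
          rcases k1 with k1 | k1 <;> rcases k2 with k2 | k2 <;> rcases k3 with k3 | k3 <;>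
            rw [k1, k2, k3] <;> simp [TensorProduct.neg_tmul, TensorProduct.tmul_neg]
        rcases this with h | h
        · exact hne h
        · exact hne' h
      · norm_num at habc
    · rcases par_or_orth hp.2.2 hq.2.2 hc h3 with ⟨rfl, k3⟩ | ⟨rfl, k3⟩
      · norm_num at habc
      · exact Or.inl ⟨k1, k2, k3⟩
  · rcases par_or_orth hp.2.1 hq.2.1 hb h2 with ⟨rfl, k2⟩ | ⟨rfl, k2⟩
    · rcases par_or_orth hp.2.2 hq.2.2 hc h3 with ⟨rfl, k3⟩ | ⟨rfl, k3⟩
      · norm_num at habc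
      · exact Or.inr (Or.inl ⟨k1, k2, k3⟩)
    · rcases par_or_orth hp.2.2 hq.2.2 hc h3 with ⟨rfl, k3⟩ | ⟨rfl, k3⟩
      · exact Or.inr (Or.inr ⟨k1, k2, k3⟩)
      · norm_num at habc

end general

/-- parallel unit vectors -/
def Par {E1 : Type} [NormedAddCommGroup E1] (x y : E1) : Prop := y = x ∨ y = -x

theorem Par.symm {E1 : Type} [NormedAddCommGroup E1] {x y : E1} (h : Par x y) : Par y x := by
  rcases h with h | h
  · exact Or.inl h.symm
  · exact Or.inr (by rw [h, neg_neg])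

theorem Par.trans {E1 : Type} [NormedAddCommGroup E1] {x y z : E1} (h : Par x y) (h' : Par y z) :
    Par x z := by
  rcases h with rfl | rfl <;> rcases h' with rfl | rfl
  · exact Or.inl rfl
  · exact Or.inr rfl
  · exact Or.inr rfl
  · exact Or.inl (neg_neg _)

theorem Par.refl {E1 : Type} [NormedAddCommGroup E1] (x : E1) : Par x x := Or.inl rfl

theorem Par.not_orth {E1 : Type} [NormedAddCommGroup E1] [InnerProductSpace ℝ E1] {x y : E1}
    (hx : ‖x‖ = 1) (h : Par x y) : ⟪x, y⟫ ≠ 0 := by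
  rcases h with rfl | rfl
  · rw [real_inner_self_eq_norm_sq, hx]; norm_num
  · rw [inner_neg_right, real_inner_self_eq_norm_sq, hx]; norm_num

/-- in the plane, two vectors orthogonal to a third one are parallel -/
theorem par_of_orth {x y z : ℂ} (hx : ‖x‖ = 1) (hy : ‖y‖ = 1) (hz : ‖z‖ = 1) (h : ⟪x, y⟫ = 0)
    (h' : ⟪x, z⟫ = 0) : Par y z := by
  have e1 : x.re * y.re + x.im * y.im = 0 := by
    have := h; simp [Complex.inner] at this; linarith
  have e2 : x.re * z.re + x.im * z.im = 0 := by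
    have := h'; simp [Complex.inner] at this; linarith
  have n1 : x.re ^ 2 + x.im ^ 2 = 1 := by
    have := Complex.sq_norm x; rw [hx, Complex.normSq_apply] at this; linarith
  have n2 : y.re ^ 2 + y.im ^ 2 = 1 := by
    have := Complex.sq_norm y; rw [hy, Complex.normSq_apply] at this; linarith
  have n3 : z.re ^ 2 + z.im ^ 2 = 1 := by
    have := Complex.sq_norm z; rw [hz, Complex.normSq_apply] at this; linarith
  set s := -x.im * y.re + x.re * y.im with hs
  set t := -x.im * z.re + x.re * z.im with ht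
  have y1 : y.re = -x.im * s := by rw [hs]; linear_combination (-y.re) * n1 + x.re * e1
  have y2 : y.im = x.re * s := by rw [hs]; linear_combination (-y.im) * n1 + x.im * e1
  have z1 : z.re = -x.im * t := by rw [ht]; linear_combination (-z.re) * n1 + x.re * e2
  have z2 : z.im = x.re * t := by rw [ht]; linear_combination (-z.im) * n1 + x.im * e2
  have s1 : s ^ 2 = 1 := by
    rw [y1, y2] at n2; linear_combination n2 - s ^ 2 * n1
  have t1 : t ^ 2 = 1 := by
    rw [z1, z2] at n3; linear_combination n3 - t ^ 2 * n1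
  have : t = s ∨ t = -s := by
    have : (t - s) * (t + s) = 0 := by linear_combination t1 - s1
    rcases mul_eq_zero.1 this with h | h
    · left; linarith
    · right; linarith
  rcases this with h | h
  · left
    apply Complex.ext
    · rw [z1, y1, h]
    · rw [z2, y2, h]
  · right
    apply Complex.ext
    · rw [Complex.neg_re, z1, y1, h]; ring
    · rw [Complex.neg_im, z2, y2, h]; ring

abbrev R3 : Type := EuclideanSpace ℝ (Fin 3)

abbrev C2 : Type := WithLp 2 (ℂ × ℂ)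

/-- there are no five points in an antipodal set which are pairwise neither equal nor opposite -/
theorem no_five (p : Fin 5 → ℂ × R3 × C2) (hp : ∀ i, p i ∈ Sph ℂ R3 C2)
    (h : ∀ i j, i ≠ j →
      (Par (p i).1 (p j).1 ∧ ⟪(p i).2.1, (p j).2.1⟫ = 0 ∧ ⟪(p i).2.2, (p j).2.2⟫ = 0) ∨
      (⟪(p i).1, (p j).1⟫ = 0 ∧ Par (p i).2.1 (p j).2.1 ∧ ⟪(p i).2.2, (p j).2.2⟫ = 0) ∨
      (⟪(p i).1, (p j).1⟫ = 0 ∧ ⟪(p i).2.1, (p j).2.1⟫ = 0 ∧ Par (p i).2.2 (p j).2.2)) : False := by
  classical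
  have hQ2 : ∀ i j, i ≠ j → ¬ Par (p i).1 (p j).1 → ⟪(p i).1, (p j).1⟫ = 0 := by
    intro i j hij hn
    rcases h i j hij with h1 | h1 | h1
    · exact absurd h1.1 hn
    · exact h1.1
    · exact h1.1
  have three : ∃ i j k, i ≠ j ∧ i ≠ k ∧ j ≠ k ∧ Par (p i).1 (p j).1 ∧ Par (p i).1 (p k).1 := by
    set S : Finset (Fin 5) := Finset.univ.filter fun i => Par (p 0).1 (p i).1 with hS
    have hcard : S.card + Sᶜ.card = 5 := by
      rw [Finset.card_add_card_compl]; rfl
    by_cases h2 : 2 < S.card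
    · obtain ⟨i, j, k, hi, hj, hk, hij, hik, hjk⟩ := Finset.two_lt_card_iff.1 h2
      rw [hS, Finset.mem_filter] at hi hj hk
      exact ⟨i, j, k, hij, hik, hjk, hi.2.symm.trans hj.2, hi.2.symm.trans hk.2⟩
    · have h3 : 2 < Sᶜ.card := by omega
      obtain ⟨i, j, k, hi, hj, hk, hij, hik, hjk⟩ := Finset.two_lt_card_iff.1 h3
      rw [Finset.mem_compl, hS, Finset.mem_filter, not_and] at hi hj hk
      have hi := hi (Finset.mem_univ _)
      have hj := hj (Finset.mem_univ _)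
      have hk := hk (Finset.mem_univ _)
      have n0 : ∀ l, ¬ Par (p 0).1 (p l).1 → ⟪(p 0).1, (p l).1⟫ = 0 := by
        intro l hl
        apply hQ2 0 l _ hl
        rintro rfl
        exact hl (Par.refl _)
      exact ⟨i, j, k, hij, hik, hjk, par_of_orth (hp 0).1 (hp i).1 (hp j).1 (n0 i hi) (n0 j hj),
        par_of_orth (hp 0).1 (hp i).1 (hp k).1 (n0 i hi) (n0 k hk)⟩
  obtain ⟨i, j, k, hij, hik, hjk, pij, pik⟩ := three
  have excl2 : ∀ a b, a ≠ b → Par (p a).1 (p b).1 → ¬ Par (p a).2.1 (p b).2.1 := by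
    intro a b hab h1 h2
    rcases h a b hab with h3 | h3 | h3
    · exact h2.not_orth (hp a).2.1 h3.2.1
    · exact h1.not_orth (hp a).1 h3.1
    · exact h1.not_orth (hp a).1 h3.1
  have excl3 : ∀ a b, a ≠ b → Par (p a).1 (p b).1 → ¬ Par (p a).2.2 (p b).2.2 := by
    intro a b hab h1 h2
    rcases h a b hab with h3 | h3 | h3
    · exact h2.not_orth (hp a).2.2 h3.2.2
    · exact h1.not_orth (hp a).1 h3.1
    · exact h1.not_orth (hp a).1 h3.1
  have all : ∀ l, Par (p i).1 (p l).1 := by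
    intro l
    by_contra hl
    have hli : l ≠ i := by rintro rfl; exact hl (Par.refl _)
    have hlj : l ≠ j := by rintro rfl; exact hl pij
    have hlk : l ≠ k := by rintro rfl; exact hl pik
    have ni : ¬ Par (p l).1 (p i).1 := fun h => hl h.symm
    have nj : ¬ Par (p l).1 (p j).1 := fun h => hl (pij.trans h.symm)
    have nk : ¬ Par (p l).1 (p k).1 := fun h => hl (pik.trans h.symm)
    have c : ∀ m, l ≠ m → ¬ Par (p l).1 (p m).1 →
        Par (p l).2.1 (p m).2.1 ∨ Par (p l).2.2 (p m).2.2 := by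
      intro m hm hn
      rcases h l m hm with h3 | h3 | h3
      · exact absurd h3.1 hn
      · exact Or.inl h3.2.1
      · exact Or.inr h3.2.2
    have pjk : Par (p j).1 (p k).1 := pij.symm.trans pik
    rcases c i hli ni with ci | ci <;> rcases c j hlj nj with cj | cj <;>
      rcases c k hlk nk with ck | ck
    · exact excl2 i j hij pij (ci.symm.trans cj)
    · exact excl2 i j hij pij (ci.symm.trans cj)
    · exact excl2 i k hik pik (ci.symm.trans ck)
    · exact excl3 j k hjk pjk (cj.symm.trans ck)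
    · exact excl2 j k hjk pjk (cj.symm.trans ck)
    · exact excl3 i k hik pik (ci.symm.trans ck)
    · exact excl3 i j hij pij (ci.symm.trans cj)
    · exact excl3 i j hij pij (ci.symm.trans cj)
  have horth : Orthonormal ℝ (fun a : Fin 5 => (p a).2.1) := by
    refine ⟨fun a => (hp a).2.1, fun a b hab => ?_⟩
    have pab : Par (p a).1 (p b).1 := (all a).symm.trans (all b)
    rcases h a b hab with h3 | h3 | h3
    · exact h3.2.1
    · exact absurd h3.1 (pab.not_orth (hp a).1)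
    · exact absurd h3.1 (pab.not_orth (hp a).1)
  have := horth.linearIndependent.fintype_card_le_finrank
  rw [finrank_euclideanSpace] at this
  simp at this

/-- among many points there are `k` which are pairwise neither equal nor opposite -/
theorem pick {E : Type} [NormedAddCommGroup E] (B : Finset E) : ∀ k : ℕ, 2 * k ≤ B.card + 1 →
    ∃ T : Fin k → E, (∀ i, T i ∈ B) ∧ ∀ i j, i ≠ j → T j ≠ T i ∧ T j ≠ -T i := by
  classical
  intro k
  induction k with
  | zero => exact fun _ => ⟨Fin.elim0, fun i => i.elim0, fun i => i.elim0⟩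
  | succ k ih =>
    intro hk
    obtain ⟨T, hT, hne⟩ := ih (by omega)
    obtain ⟨e, he, hes⟩ : ∃ e ∈ B, e ∉ Finset.univ.image T ∪ Finset.univ.image (fun i => -T i) := by
      apply Finset.exists_mem_notMem_of_card_lt_card
      have h1 : (Finset.univ.image T).card ≤ k := by
        simpa using Finset.card_image_le (s := Finset.univ) (f := T)
      have h2 : (Finset.univ.image (fun i => -T i)).card ≤ k := by
        simpa using Finset.card_image_le (s := Finset.univ) (f := fun i => -T i)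
      have h3 := Finset.card_union_le (Finset.univ.image T) (Finset.univ.image (fun i => -T i))
      omega
    have hes' : ∀ i, e ≠ T i ∧ e ≠ -T i := by
      intro i
      constructor
      · rintro rfl
        exact hes (Finset.mem_union_left _ (Finset.mem_image_of_mem _ (Finset.mem_univ i)))
      · intro h
        exact hes (Finset.mem_union_right _ (Finset.mem_image.2 ⟨i, Finset.mem_univ i, h.symm⟩))
    refine ⟨Fin.cons e T, ?_, ?_⟩
    · intro i
      refine Fin.cases ?_ (fun i => ?_) i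
      · exact he
      · exact hT i
    · intro i j
      refine Fin.cases ?_ (fun i => ?_) i <;> refine Fin.cases ?_ (fun j => ?_) j
      · intro h; exact absurd rfl h
      · intro _
        simp only [Fin.cons_zero, Fin.cons_succ]
        exact ⟨fun h => (hes' j).1 h.symm, fun h => (hes' j).2 (by rw [h, neg_neg])⟩
      · intro _
        simp only [Fin.cons_zero, Fin.cons_succ]
        exact hes' i
      · intro hij
        simp only [Fin.cons_succ]
        exact hne i j (fun h => hij (by rw [h]))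

theorem finrank_C : 1 < finrank ℝ ℂ := by rw [Complex.finrank_real_complex]; norm_num

theorem finrank_R3 : 1 < finrank ℝ R3 := by rw [finrank_euclideanSpace]; norm_num

theorem finrank_C2 : 1 < finrank ℝ C2 := by
  rw [(WithLp.linearEquiv 2 ℝ (ℂ × ℂ)).finrank_eq, finrank_prod, Complex.finrank_real_complex]
  norm_num

/-- the unit decomposable tensors in `ℝ² ⊗ ℝ³ ⊗ ℝ⁴` -/
noncomputable def spaceA : SymmetricSpace (ℂ ⊗[ℝ] (R3 ⊗[ℝ] C2)) :=
  (modelA ℂ R3 C2).space finrank_C finrank_R3 finrank_C2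

/-- the product of the circle with the unit decomposable tensors in `ℝ³ ⊗ ℝ⁴` -/
noncomputable def spaceB : SymmetricSpace (WithLp 2 (ℂ × (R3 ⊗[ℝ] C2))) :=
  (modelB ℂ R3 C2).space finrank_C finrank_R3 finrank_C2

theorem two_le : twoNumber spaceA ≤ 8 := by
  unfold twoNumber
  refine iSup₂_le fun A hA => ?_
  by_contra hcon
  push Not at hcon
  have h9 : (9 : ℕ∞) ≤ A.encard := Order.add_one_le_of_lt hcon
  obtain ⟨B, hBA, hB⟩ := Set.exists_subset_encard_eq h9
  have hfin : B.Finite := Set.finite_of_encard_eq_coe (k := 9) (by exact_mod_cast hB)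
  have hcard : hfin.toFinset.card = 9 := by
    have h1 := hfin.encard_eq_coe_toFinset_card
    rw [hB] at h1
    exact_mod_cast h1.symm
  obtain ⟨T, hT, hne⟩ := pick hfin.toFinset 5 (by omega)
  have hTA : ∀ i, T i ∈ A := fun i => hBA (hfin.mem_toFinset.1 (hT i))
  choose p hp using fun i => (modelA ℂ R3 C2).symmAt_spec (hA.1 (hTA i))
  refine no_five p (fun i => (hp i).1) fun i j hij => ?_
  have h1 := hA.2 (T i) (hTA i) (T j) (hTA j)
  change (modelA ℂ R3 C2).symmAt (T i) (T j) = T j at h1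
  rw [(hp i).2.2, ← (hp j).2.1] at h1
  have h2 := hne i j hij
  rw [← (hp i).2.1, ← (hp j).2.1] at h2
  rcases relation (hp i).1 (hp j).1 h1 h2.1 h2.2 with h | h | h
  · exact Or.inl h
  · exact Or.inr (Or.inl h)
  · exact Or.inr (Or.inr h)

end Pool.Agent.Hx53.TN
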