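import Pool.Agent.Hx53.TNModel

/-!
# The two symmetric spaces
-/

set_option autoImplicit false
set_option linter.unusedSectionVars false

namespace Pool.Agent.Hx53.TN

open scoped ContDiff RealInnerProductSpace TensorProduct
open Set Module

variable {E1 E2 E3 E : Type} [NormedAddCommGroup E1] [InnerProductSpace ℝ E1]
  [NormedAddCommGroup E2] [InnerProductSpace ℝ E2]
  [NormedAddCommGroup E3] [InnerProductSpace ℝ E3]
  [NormedAddCommGroup E] [InnerProductSpace ℝ E]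
  [FiniteDimensional ℝ E1] [FiniteDimensional ℝ E2] [FiniteDimensional ℝ E3]

theorem Sph_eq : Sph E1 E2 E3 = Metric.sphere (0 : E1) 1 ×ˢ
    (Metric.sphere (0 : E2) 1 ×ˢ Metric.sphere (0 : E3) 1) := by
  ext p; simp [Sph]

theorem isCompact_Sph : IsCompact (Sph E1 E2 E3) := by
  have := FiniteDimensional.proper ℝ E1
  have := FiniteDimensional.proper ℝ E2
  have := FiniteDimensional.proper ℝ E3
  rw [Sph_eq]
  exact (isCompact_sphere _ _).prod ((isCompact_sphere _ _).prod (isCompact_sphere _ _))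

theorem isConnected_sph {E1 : Type} [NormedAddCommGroup E1] [InnerProductSpace ℝ E1]
    [FiniteDimensional ℝ E1] (h : 1 < finrank ℝ E1) : IsConnected (Metric.sphere (0 : E1) 1) := by
  apply isConnected_sphere _ _ zero_le_one
  rw [← finrank_eq_rank]
  exact_mod_cast h

theorem isConnected_Sph (h1 : 1 < finrank ℝ E1) (h2 : 1 < finrank ℝ E2) (h3 : 1 < finrank ℝ E3) :
    IsConnected (Sph E1 E2 E3) := by
  rw [Sph_eq]
  exact (isConnected_sph h1).prod ((isConnected_sph h2).prod (isConnected_sph h3))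

theorem sy_self {p : E1} (hp : ‖p‖ = 1) : sy p p = p := by
  rw [sy_apply p hp, real_inner_self_eq_norm_sq, hp]
  rw [one_pow, mul_one, two_smul]; abel

theorem sy_mem (p : E1 × E2 × E3) {q : E1 × E2 × E3} (hq : q ∈ Sph E1 E2 E3) :
    (sy p.1 q.1, sy p.2.1 q.2.1, sy p.2.2 q.2.2) ∈ Sph E1 E2 E3 :=
  ⟨by simp only [LinearIsometryEquiv.norm_map]; exact hq.1,
    by simp only [LinearIsometryEquiv.norm_map]; exact hq.2.1,
    by simp only [LinearIsometryEquiv.norm_map]; exact hq.2.2⟩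

namespace Model

variable (m : Model E1 E2 E3 E)

open Classical in
/-- the symmetry at a point -/
noncomputable def symmAt (T : E) : E ≃ₗᵢ[ℝ] E :=
  if h : ∃ p ∈ Sph E1 E2 E3, m.F p = T then m.sig h.choose else LinearIsometryEquiv.refl ℝ E

theorem symmAt_spec {T : E} (hT : T ∈ m.F '' Sph E1 E2 E3) :
    ∃ p ∈ Sph E1 E2 E3, m.F p = T ∧ m.symmAt T = m.sig p := by
  have h : ∃ p ∈ Sph E1 E2 E3, m.F p = T := hT
  refine ⟨h.choose, h.choose_spec.1, h.choose_spec.2, ?_⟩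
  unfold symmAt
  rw [dif_pos h]

/-- the symmetric space -/
noncomputable def space (h1 : 1 < finrank ℝ E1) (h2 : 1 < finrank ℝ E2) (h3 : 1 < finrank ℝ E3) :
    SymmetricSpace E where
  carrier := m.F '' Sph E1 E2 E3
  dim := dm E1 E2 E3
  compact := isCompact_Sph.image m.smooth.continuous
  connected := (isConnected_Sph h1 h2 h3).image _ m.smooth.continuous.continuousOn
  submanifold := m.isSubmanifold
  symm := m.symmAt
  symm_mem := by
    intro T hT T' hT'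
    obtain ⟨p, hp, -, hs⟩ := m.symmAt_spec hT
    obtain ⟨q, hq, rfl⟩ := hT'
    rw [hs, m.sig_F]
    exact ⟨_, sy_mem p hq, rfl⟩
  symm_self := by
    intro T hT
    obtain ⟨p, hp, rfl, hs⟩ := m.symmAt_spec hT
    rw [hs, m.sig_F, sy_self hp.1, sy_self hp.2.1, sy_self hp.2.2]
  symm_tangent := by
    intro T hT v hv
    obtain ⟨p, hp, rfl, hs⟩ := m.symmAt_spec hT
    rw [hs]
    exact m.tangent hp hv

end Model

/-- sign changes -/
theorem pos_cases {a b c : ℝ} (h : 0 < a * (b * c)) :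
    (0 < a ∧ 0 < b ∧ 0 < c) ∨ (0 < a ∧ b < 0 ∧ c < 0) ∨ (a < 0 ∧ 0 < b ∧ c < 0) ∨
      (a < 0 ∧ b < 0 ∧ 0 < c) := by
  rcases pos_and_pos_or_neg_and_neg_of_mul_pos h with ⟨ha, hbc⟩ | ⟨ha, hbc⟩
  · rcases pos_and_pos_or_neg_and_neg_of_mul_pos hbc with h | h
    · exact Or.inl ⟨ha, h⟩
    · exact Or.inr (Or.inl ⟨ha, h⟩)
  · rcases mul_neg_iff.1 hbc with h | h
    · exact Or.inr (Or.inr (Or.inl ⟨ha, h⟩))
    · exact Or.inr (Or.inr (Or.inr ⟨ha, h⟩))

/-- the decomposable tensors -/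
noncomputable def seg (p : E1 × E2 × E3) : E1 ⊗[ℝ] (E2 ⊗[ℝ] E3) := p.1 ⊗ₜ (p.2.1 ⊗ₜ p.2.2)

theorem seg_inner (p q : E1 × E2 × E3) :
    ⟪seg p, seg q⟫ = ⟪p.1, q.1⟫ * (⟪p.2.1, q.2.1⟫ * ⟪p.2.2, q.2.2⟫) := by
  unfold seg
  rw [TensorProduct.inner_tmul, TensorProduct.inner_tmul]

theorem contDiff_tmul {F G X : Type} [NormedAddCommGroup F] [InnerProductSpace ℝ F]
    [NormedAddCommGroup G] [InnerProductSpace ℝ G] [NormedAddCommGroup X] [NormedSpace ℝ X]
    {f : X → F} {g : X → G} (hf : ContDiff ℝ ∞ f) (hg : ContDiff ℝ ∞ g) :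
    ContDiff ℝ ∞ (fun x => f x ⊗ₜ[ℝ] g x) := by
  have h : IsBoundedBilinearMap ℝ (fun p : F × G => p.1 ⊗ₜ[ℝ] p.2) :=
    { add_left := fun x y z => TensorProduct.add_tmul _ _ _
      smul_left := fun c x y => (TensorProduct.smul_tmul' c x y).symm
      add_right := fun x y z => TensorProduct.tmul_add _ _ _
      smul_right := fun c x y => TensorProduct.tmul_smul _ _ _
      bound := ⟨1, one_pos, fun x y => by rw [TensorProduct.norm_tmul]; linarith⟩ }
  exact (h.contDiff (n := ∞)).comp (hf.prodMk hg)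

/-- contraction in the second factor -/
noncomputable def cr {F G : Type} [NormedAddCommGroup F] [InnerProductSpace ℝ F]
    [NormedAddCommGroup G] [InnerProductSpace ℝ G] (g : G) : F ⊗[ℝ] G →ₗ[ℝ] F :=
  (TensorProduct.rid ℝ F).toLinearMap ∘ₗ TensorProduct.map LinearMap.id (innerₛₗ ℝ g)

theorem cr_tmul {F G : Type} [NormedAddCommGroup F] [InnerProductSpace ℝ F]
    [NormedAddCommGroup G] [InnerProductSpace ℝ G] (g : G) (x : F) (y : G) :
    cr g (x ⊗ₜ y) = ⟪g, y⟫ • x := by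
  simp [cr]

/-- contraction in the first factor -/
noncomputable def cl {F G : Type} [NormedAddCommGroup F] [InnerProductSpace ℝ F]
    [NormedAddCommGroup G] [InnerProductSpace ℝ G] (f : F) : F ⊗[ℝ] G →ₗ[ℝ] G :=
  (TensorProduct.lid ℝ G).toLinearMap ∘ₗ TensorProduct.map (innerₛₗ ℝ f) LinearMap.id

theorem cl_tmul {F G : Type} [NormedAddCommGroup F] [InnerProductSpace ℝ F]
    [NormedAddCommGroup G] [InnerProductSpace ℝ G] (f : F) (x : F) (y : G) :
    cl f (x ⊗ₜ y) = ⟪f, x⟫ • y := by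
  simp [cl]

theorem contDiff_lin {F G : Type} [NormedAddCommGroup F] [NormedSpace ℝ F] [FiniteDimensional ℝ F]
    [NormedAddCommGroup G] [NormedSpace ℝ G] (f : F →ₗ[ℝ] G) : ContDiff ℝ ∞ f :=
  f.toContinuousLinearMap.contDiff

/-- the space of unit decomposable tensors -/
noncomputable def modelA (E1 E2 E3 : Type) [NormedAddCommGroup E1] [InnerProductSpace ℝ E1]
    [NormedAddCommGroup E2] [InnerProductSpace ℝ E2]
    [NormedAddCommGroup E3] [InnerProductSpace ℝ E3]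
    [FiniteDimensional ℝ E1] [FiniteDimensional ℝ E2] [FiniteDimensional ℝ E3] :
    Model E1 E2 E3 (E1 ⊗[ℝ] (E2 ⊗[ℝ] E3)) where
  F := seg
  smooth := by
    unfold seg
    exact contDiff_tmul contDiff_fst (contDiff_tmul (contDiff_fst.comp contDiff_snd)
      (contDiff_snd.comp contDiff_snd))
  sig p := TensorProduct.congrIsometry (sy p.1)
    (TensorProduct.congrIsometry (sy p.2.1) (sy p.2.2))
  sig_F p q := by
    unfold seg
    simp [TensorProduct.congrIsometry_apply]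
  U p := {T | 0 < ⟪seg p, T⟫}
  U_open p := by
    have h1 : Continuous (fun T : E1 ⊗[ℝ] (E2 ⊗[ℝ] E3) => ⟪seg p, T⟫) :=
      (innerSL ℝ (seg p)).continuous
    exact isOpen_lt continuous_const h1
  R p T := (⟪seg p, T⟫⁻¹ • cr (p.2.1 ⊗ₜ p.2.2) T, ⟪seg p, T⟫⁻¹ • cr p.2.2 (cl p.1 T),
    ⟪seg p, T⟫⁻¹ • cl p.2.1 (cl p.1 T))
  R_smooth p := by
    have h0 : ContDiffOn ℝ ∞ (fun T : E1 ⊗[ℝ] (E2 ⊗[ℝ] E3) => ⟪seg p, T⟫⁻¹)
        {T | 0 < ⟪seg p, T⟫} := by
      have h1 : ContDiff ℝ ∞ (fun T : E1 ⊗[ℝ] (E2 ⊗[ℝ] E3) => ⟪seg p, T⟫) :=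
        (innerSL ℝ (seg p)).contDiff
      refine ContDiffOn.inv h1.contDiffOn ?_
      intro T hT
      exact (ne_of_gt hT)
    refine ContDiffOn.prodMk (h0.smul (contDiff_lin _).contDiffOn)
      (ContDiffOn.prodMk (h0.smul ?_) (h0.smul ?_))
    · exact ((contDiff_lin (cr p.2.2)).comp (contDiff_lin (cl p.1))).contDiffOn
    · exact ((contDiff_lin (cl p.2.1)).comp (contDiff_lin (cl p.1))).contDiffOn
  pos := by
    intro p hp q hq hU
    change 0 < ⟪seg p, seg q⟫ at hU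
    rw [seg_inner] at hU
    rcases pos_cases hU with h | h | h | h
    · exact ⟨q, hq, rfl, h⟩
    · refine ⟨(q.1, -q.2.1, -q.2.2), ⟨hq.1, by simpa using hq.2.1, by simpa using hq.2.2⟩, ?_,
        h.1, ?_, ?_⟩
      · simp [seg, TensorProduct.neg_tmul, TensorProduct.tmul_neg]
      · simp only [inner_neg_right]; linarith [h.2.1]
      · simp only [inner_neg_right]; linarith [h.2.2]
    · refine ⟨(-q.1, q.2.1, -q.2.2), ⟨by simpa using hq.1, hq.2.1, by simpa using hq.2.2⟩, ?_,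
        ?_, h.2.1, ?_⟩
      · simp [seg, TensorProduct.neg_tmul, TensorProduct.tmul_neg]
      · simp only [inner_neg_right]; linarith [h.1]
      · simp only [inner_neg_right]; linarith [h.2.2]
    · refine ⟨(-q.1, -q.2.1, q.2.2), ⟨by simpa using hq.1, by simpa using hq.2.1, hq.2.2⟩, ?_,
        ?_, ?_, h.2.2⟩
      · simp [seg, TensorProduct.neg_tmul, TensorProduct.tmul_neg]
      · simp only [inner_neg_right]; linarith [h.1]
      · simp only [inner_neg_right]; linarith [h.2.1]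
  pos_mem := by
    intro p hp q hq h
    have h1 := h.1
    have h2 := h.2.1
    have h3 := h.2.2
    constructor
    · change 0 < ⟪seg p, seg q⟫
      rw [seg_inner]
      positivity
    · simp only [seg_inner]
      simp only [seg, cr_tmul, cl_tmul, map_smul, TensorProduct.inner_tmul, smul_smul]
      refine Prod.ext ?_ (Prod.ext ?_ ?_)
      · simp only
        congr 1
        field_simp
      · simp only
        congr 1
        field_simp
      · simp only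
        congr 1
        field_simp

/-- the product of the first sphere with the unit decomposable tensors in the other two -/
noncomputable def sge (p : E1 × E2 × E3) : WithLp 2 (E1 × (E2 ⊗[ℝ] E3)) :=
  WithLp.toLp 2 (p.1, p.2.1 ⊗ₜ p.2.2)

/-- the product space -/
noncomputable def modelB (E1 E2 E3 : Type) [NormedAddCommGroup E1] [InnerProductSpace ℝ E1]
    [NormedAddCommGroup E2] [InnerProductSpace ℝ E2]
    [NormedAddCommGroup E3] [InnerProductSpace ℝ E3]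
    [FiniteDimensional ℝ E1] [FiniteDimensional ℝ E2] [FiniteDimensional ℝ E3] :
    Model E1 E2 E3 (WithLp 2 (E1 × (E2 ⊗[ℝ] E3))) where
  F := sge
  smooth := by
    have h : ContDiff ℝ ∞ (fun p : E1 × E2 × E3 => (p.1, p.2.1 ⊗ₜ[ℝ] p.2.2)) :=
      contDiff_fst.prodMk (contDiff_tmul (contDiff_fst.comp contDiff_snd)
        (contDiff_snd.comp contDiff_snd))
    exact (WithLp.prodContinuousLinearEquiv 2 ℝ E1 (E2 ⊗[ℝ] E3)).symm.contDiff.comp h
  sig p := LinearIsometryEquiv.withLpProdCongr 2 (sy p.1)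
    (TensorProduct.congrIsometry (sy p.2.1) (sy p.2.2))
  sig_F p q := by
    unfold sge
    simp [TensorProduct.congrIsometry_apply]
  U p := {T | 0 < ⟪p.1, T.fst⟫ ∧ 0 < ⟪p.2.1 ⊗ₜ[ℝ] p.2.2, T.snd⟫}
  U_open p := by
    have c1 : Continuous fun T : WithLp 2 (E1 × (E2 ⊗[ℝ] E3)) => ⟪p.1, T.fst⟫ :=
      ((innerSL ℝ p.1) ∘L (WithLp.fstL 2 ℝ E1 (E2 ⊗[ℝ] E3))).continuous
    have c2 : Continuous fun T : WithLp 2 (E1 × (E2 ⊗[ℝ] E3)) =>
        ⟪p.2.1 ⊗ₜ[ℝ] p.2.2, T.snd⟫ :=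
      ((innerSL ℝ (p.2.1 ⊗ₜ[ℝ] p.2.2)) ∘L (WithLp.sndL 2 ℝ E1 (E2 ⊗[ℝ] E3))).continuous
    exact (isOpen_lt continuous_const c1).inter (isOpen_lt continuous_const c2)
  R p T := (⟪p.1, T.fst⟫⁻¹ • T.fst, ⟪p.2.1 ⊗ₜ[ℝ] p.2.2, T.snd⟫⁻¹ • cr p.2.2 T.snd,
    ⟪p.2.1 ⊗ₜ[ℝ] p.2.2, T.snd⟫⁻¹ • cl p.2.1 T.snd)
  R_smooth p := by
    have c1 : ContDiff ℝ ∞ fun T : WithLp 2 (E1 × (E2 ⊗[ℝ] E3)) => T.fst :=
      (WithLp.fstL 2 ℝ E1 (E2 ⊗[ℝ] E3)).contDiff
    have c2 : ContDiff ℝ ∞ fun T : WithLp 2 (E1 × (E2 ⊗[ℝ] E3)) => T.snd :=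
      (WithLp.sndL 2 ℝ E1 (E2 ⊗[ℝ] E3)).contDiff
    have h1 : ContDiffOn ℝ ∞ (fun T : WithLp 2 (E1 × (E2 ⊗[ℝ] E3)) => ⟪p.1, T.fst⟫⁻¹)
        {T | 0 < ⟪p.1, T.fst⟫ ∧ 0 < ⟪p.2.1 ⊗ₜ[ℝ] p.2.2, T.snd⟫} := by
      refine ContDiffOn.inv (ContDiff.contDiffOn
        ((innerSL ℝ p.1) ∘L (WithLp.fstL 2 ℝ E1 (E2 ⊗[ℝ] E3))).contDiff) ?_
      intro T hT
      exact (ne_of_gt hT.1)
    have h2 : ContDiffOn ℝ ∞ (fun T : WithLp 2 (E1 × (E2 ⊗[ℝ] E3)) =>
        ⟪p.2.1 ⊗ₜ[ℝ] p.2.2, T.snd⟫⁻¹)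
        {T | 0 < ⟪p.1, T.fst⟫ ∧ 0 < ⟪p.2.1 ⊗ₜ[ℝ] p.2.2, T.snd⟫} := by
      refine ContDiffOn.inv (ContDiff.contDiffOn
        ((innerSL ℝ (p.2.1 ⊗ₜ[ℝ] p.2.2)) ∘L (WithLp.sndL 2 ℝ E1 (E2 ⊗[ℝ] E3))).contDiff) ?_
      intro T hT
      exact (ne_of_gt hT.2)
    refine ContDiffOn.prodMk (h1.smul c1.contDiffOn)
      (ContDiffOn.prodMk (h2.smul ?_) (h2.smul ?_))
    · exact ((contDiff_lin (cr p.2.2)).comp c2).contDiffOn
    · exact ((contDiff_lin (cl p.2.1)).comp c2).contDiffOn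
  pos := by
    intro p hp q hq hU
    obtain ⟨hU1, hU2⟩ : 0 < ⟪p.1, q.1⟫ ∧ 0 < ⟪p.2.1 ⊗ₜ[ℝ] p.2.2, q.2.1 ⊗ₜ[ℝ] q.2.2⟫ := hU
    rw [TensorProduct.inner_tmul] at hU2
    rcases pos_and_pos_or_neg_and_neg_of_mul_pos hU2 with h | h
    · exact ⟨q, hq, rfl, hU1, h⟩
    · refine ⟨(q.1, -q.2.1, -q.2.2), ⟨hq.1, by simpa using hq.2.1, by simpa using hq.2.2⟩, ?_,
        hU1, ?_, ?_⟩
      · simp [sge, TensorProduct.neg_tmul, TensorProduct.tmul_neg]
      · simp only [inner_neg_right]; linarith [h.1]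
      · simp only [inner_neg_right]; linarith [h.2]
  pos_mem := by
    intro p hp q hq h
    have h1 := h.1
    have h2 := h.2.1
    have h3 := h.2.2
    constructor
    · change 0 < ⟪p.1, q.1⟫ ∧ 0 < ⟪p.2.1 ⊗ₜ[ℝ] p.2.2, q.2.1 ⊗ₜ[ℝ] q.2.2⟫
      rw [TensorProduct.inner_tmul]
      exact ⟨h1, by positivity⟩
    · simp only [sge, WithLp.toLp_fst, WithLp.toLp_snd, cr_tmul, cl_tmul,
        TensorProduct.inner_tmul, smul_smul]
      refine Prod.ext rfl (Prod.ext ?_ ?_)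
      · simp only
        congr 1
        field_simp
      · simp only
        congr 1
        field_simp

end Pool.Agent.Hx53.TN
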