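import Mathlib

/-!
# The van Kampen obstruction for the complete graph on five vertices

There are no five points of the plane joined by ten continuous curves such that curves
without a common end are disjoint.  The proof compares the angles under which the curves are
seen from the points.
-/

set_option autoImplicit false

namespace Pool.Agent.Hx53.Van

open Complex Topology

/-- a continuous logarithm on a contractible space -/
theorem exists_log {A : Type} [TopologicalSpace A] [SimplyConnectedSpace A]
    [LocallyPathConnectedSpace A] (F : A → ℂ) (hF : Continuous F) (h0 : ∀ x, F x ≠ 0) :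
    ∃ L : A → ℂ, Continuous L ∧ ∀ x, exp (L x) = F x := by
  obtain ⟨a₀⟩ : Nonempty A := inferInstance
  let f : C(A, {z : ℂ // z ≠ 0}) := ⟨fun x => ⟨F x, h0 x⟩, by fun_prop⟩
  obtain ⟨L, ⟨-, hL⟩, -⟩ := Complex.isCoveringMap_exp.existsUnique_continuousMap_lifts f a₀
    (Complex.log (F a₀)) (by ext; simp [f, Complex.exp_log (h0 a₀)])
  refine ⟨L, L.continuous, fun x => ?_⟩
  have := congrFun hL x
  exact congrArg Subtype.val this

theorem incr_eq {L L' : ℝ → ℂ} (hL : Continuous L) (hL' : Continuous L') (k : ℂ)
    (h : ∀ s, exp (L s) = k * exp (L' s)) : L 1 - L 0 = L' 1 - L' 0 := by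
  have hD : Continuous (fun s => L s - L' s) := hL.sub hL'
  have he : ∀ s, exp (L s - L' s) = k := fun s => by
    rw [exp_sub, h, mul_div_assoc, div_self (exp_ne_zero _), mul_one]
  have := Complex.isCoveringMap_exp.eq_of_comp_eq (A := ℝ) hD
    (continuous_const (y := L 0 - L' 0)) (by
      funext s
      apply Subtype.ext
      change exp (L s - L' s) = exp (L 0 - L' 0)
      rw [he, he]) 0 rfl
  have h1 : L 1 - L' 1 = L 0 - L' 0 := congrFun this 1
  linear_combination h1

section

variable {g : Fin 5 → ℂ} {γ : Fin 5 → Fin 5 → ℝ → ℂ}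

/-- the increment of the logarithm of `γ a b - g c` -/
noncomputable def al (g : Fin 5 → ℂ) (γ : Fin 5 → Fin 5 → ℝ → ℂ) (a b c : Fin 5) : ℂ :=
  open Classical in
  if h : ∃ L : ℝ → ℂ, Continuous L ∧ ∀ s, exp (L s) = γ a b s - g c then
    h.choose 1 - h.choose 0 else 0

theorem al_eq {a b c : Fin 5} {L : ℝ → ℂ} (hL : Continuous L) (k : ℂ)
    (hγ : Continuous (γ a b)) (h0 : ∀ s, γ a b s ≠ g c)
    (h : ∀ s, exp (L s) = k * (γ a b s - g c)) : al g γ a b c = L 1 - L 0 := by
  have hex : ∃ L : ℝ → ℂ, Continuous L ∧ ∀ s, exp (L s) = γ a b s - g c :=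
    exists_log _ (hγ.sub continuous_const) (fun s => sub_ne_zero.2 (h0 s))
  unfold al
  rw [dif_pos hex]
  refine (incr_eq hL hex.choose_spec.1 k fun s => ?_).symm
  rw [h, hex.choose_spec.2]

theorem exp_al {a b c : Fin 5} (hγ : Continuous (γ a b)) (h0 : ∀ s, γ a b s ≠ g c)
    (ha : γ a b 0 = g a) (hb : γ a b 1 = g b) :
    exp (al g γ a b c) = (g b - g c) / (g a - g c) := by
  obtain ⟨L, hL, hLe⟩ := exists_log (fun s => γ a b s - g c) (hγ.sub continuous_const)
    (fun s => sub_ne_zero.2 (h0 s))
  rw [al_eq hL 1 hγ h0 (by simpa using hLe), exp_sub, hLe, hLe, ha, hb]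

theorem al_rel {a b c d : Fin 5} (h1 : Continuous (γ a b)) (h2 : Continuous (γ c d))
    (ha : γ a b 0 = g a) (hb : γ a b 1 = g b) (hc : γ c d 0 = g c) (hd : γ c d 1 = g d)
    (h : ∀ s t, γ a b s ≠ γ c d t) :
    al g γ a b c + al g γ c d b = al g γ a b d + al g γ c d a := by
  obtain ⟨L, hL, hLe⟩ := exists_log (A := ℝ × ℝ) (fun x => γ a b x.1 - γ c d x.2)
    (by fun_prop) (fun x => sub_ne_zero.2 (h _ _))
  rw [al_eq (a := a) (b := b) (c := c) (L := fun s => L (s, 0)) (by fun_prop) 1 h1
      (fun s => hc ▸ h s 0) (fun s => by rw [hLe, hc, one_mul]),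
    al_eq (a := a) (b := b) (c := d) (L := fun s => L (s, 1)) (by fun_prop) 1 h1
      (fun s => hd ▸ h s 1) (fun s => by rw [hLe, hd, one_mul]),
    al_eq (a := c) (b := d) (c := b) (L := fun s => L (1, s)) (by fun_prop) (-1) h2
      (fun s => hb ▸ (h 1 s).symm) (fun s => by rw [hLe, hb]; ring),
    al_eq (a := c) (b := d) (c := a) (L := fun s => L (0, s)) (by fun_prop) (-1) h2
      (fun s => ha ▸ (h 0 s).symm) (fun s => by rw [hLe, ha]; ring)]
  ring

end

/-- the sign of the order of two vertices -/
def sg (x y : Fin 5) : ℤ := if x < y then 1 else -1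

/-- **Five points of the plane cannot be joined by curves such that curves without a common end
are disjoint.** -/
theorem no_K5 (g : Fin 5 → ℂ) (γ : Fin 5 → Fin 5 → ℝ → ℂ)
    (hγ : ∀ a b, a < b → Continuous (γ a b)) (h0 : ∀ a b, a < b → γ a b 0 = g a)
    (h1 : ∀ a b, a < b → γ a b 1 = g b)
    (hd : ∀ a b c d, a < b → c < d → a ≠ c → a ≠ d → b ≠ c → b ≠ d →
      ∀ s t, γ a b s ≠ γ c d t) : False := by
  classical
  -- no point lies on an opposite edge
  have hv : ∀ a b c, a < b → c ≠ a → c ≠ b → ∀ s, γ a b s ≠ g c := by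
    intro a b c hab hca hcb s
    obtain ⟨d, hda, hdb, hdc⟩ : ∃ d : Fin 5, d ≠ a ∧ d ≠ b ∧ d ≠ c := by
      revert a b c; decide
    rcases lt_or_gt_of_ne hdc with hlt | hlt
    · have := hd a b d c hab hlt hda.symm hca.symm hdb.symm hcb.symm s 1
      rwa [h1 d c hlt] at this
    · have := hd a b c d hab hlt hca.symm hda.symm hcb.symm hdb.symm s 0
      rwa [h0 c d hlt] at this
  have hg : ∀ a b, a < b → g a ≠ g b := by
    intro a b hab
    obtain ⟨c, hca, hcb⟩ : ∃ c : Fin 5, c ≠ a ∧ c ≠ b := by revert a b; decide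
    rcases lt_or_gt_of_ne hca with hlt | hlt
    · have := hv c a b hlt hcb.symm hab.ne' 1
      rwa [h1 c a hlt] at this
    · have := hv a c b hlt hab.ne' hcb.symm 0
      rwa [h0 a c hlt] at this
  -- logarithms of the differences
  set l : Fin 5 → Fin 5 → ℂ := fun x y =>
    if x < y then log (g x - g y) else log (g y - g x) + Real.pi * I with hl
  have hle : ∀ x y, x ≠ y → exp (l x y) = g x - g y := by
    intro x y hxy
    rcases lt_or_gt_of_ne hxy with h | h
    · simp only [hl, if_pos h]
      exact exp_log (sub_ne_zero.2 (hg x y h))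
    · simp only [hl, if_neg h.not_gt]
      rw [exp_add, exp_pi_mul_I, exp_log (sub_ne_zero.2 (hg y x h))]
      ring
  have hls : ∀ x y, x ≠ y → l y x - l x y = Real.pi * I * (sg x y : ℤ) := by
    intro x y hxy
    rcases lt_or_gt_of_ne hxy with h | h
    · simp only [hl, if_pos h, if_neg h.not_gt, sg]
      push_cast; ring
    · simp only [hl, if_pos h, if_neg h.not_gt, sg]
      push_cast; ring
  -- the integers
  have hn : ∀ a b c, ∃ n : ℤ, a < b → c ≠ a → c ≠ b →
      al g γ a b c = l b c - l a c + n * (2 * Real.pi * I) := by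
    intro a b c
    by_cases h : a < b ∧ c ≠ a ∧ c ≠ b
    · obtain ⟨hab, hca, hcb⟩ := h
      have e : exp (al g γ a b c) = exp (l b c - l a c) := by
        rw [exp_al (hγ a b hab) (hv a b c hab hca hcb) (h0 a b hab) (h1 a b hab), exp_sub,
          hle b c hcb.symm, hle a c hca.symm]
      obtain ⟨n, hn⟩ := exp_eq_exp_iff_exists_int.1 e
      exact ⟨n, fun _ _ _ => hn⟩
    · exact ⟨0, fun x y z => absurd ⟨x, y, z⟩ h⟩
  choose n hn using hn
  have key : ∀ a b c d, a < b → c < d → a ≠ c → a ≠ d → b ≠ c → b ≠ d →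
      sg c b + sg a c + sg b d + sg d a + 2 * (n a b c + n c d b - n a b d - n c d a) = 0 := by
    intro a b c d hab hcd hac had hbc hbd
    have hr := al_rel (g := g) (hγ a b hab) (hγ c d hcd) (h0 a b hab) (h1 a b hab) (h0 c d hcd)
      (h1 c d hcd) (hd a b c d hab hcd hac had hbc hbd)
    rw [hn a b c hab hac.symm hbc.symm, hn c d b hcd hbc hbd, hn a b d hab had.symm hbd.symm,
      hn c d a hcd hac had] at hr
    have e1 := hls c b hbc.symm
    have e2 := hls a c hac
    have e3 := hls b d hbd
    have e4 := hls d a had.symm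
    have hpi : (Real.pi * I : ℂ) ≠ 0 :=
      mul_ne_zero (by exact_mod_cast Real.pi_ne_zero) I_ne_zero
    have : (Real.pi * I : ℂ) * ((sg c b + sg a c + sg b d + sg d a +
        2 * (n a b c + n c d b - n a b d - n c d a) : ℤ) : ℂ) = 0 := by
      push_cast
      linear_combination hr - e1 - e2 - e3 - e4
    rcases mul_eq_zero.1 this with h | h
    · exact absurd h hpi
    · exact_mod_cast h
  have k1 := key 0 1 2 3 (by decide) (by decide) (by decide) (by decide) (by decide) (by decide)
  have k2 := key 0 1 2 4 (by decide) (by decide) (by decide) (by decide) (by decide) (by decide)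
  have k3 := key 0 1 3 4 (by decide) (by decide) (by decide) (by decide) (by decide) (by decide)
  have k4 := key 0 2 1 3 (by decide) (by decide) (by decide) (by decide) (by decide) (by decide)
  have k5 := key 0 2 1 4 (by decide) (by decide) (by decide) (by decide) (by decide) (by decide)
  have k6 := key 0 2 3 4 (by decide) (by decide) (by decide) (by decide) (by decide) (by decide)
  have k7 := key 0 3 1 2 (by decide) (by decide) (by decide) (by decide) (by decide) (by decide)
  have k8 := key 0 3 1 4 (by decide) (by decide) (by decide) (by decide) (by decide) (by decide)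
  have k9 := key 0 3 2 4 (by decide) (by decide) (by decide) (by decide) (by decide) (by decide)
  have k10 := key 0 4 1 2 (by decide) (by decide) (by decide) (by decide) (by decide) (by decide)
  have k11 := key 0 4 1 3 (by decide) (by decide) (by decide) (by decide) (by decide) (by decide)
  have k12 := key 0 4 2 3 (by decide) (by decide) (by decide) (by decide) (by decide) (by decide)
  have k13 := key 1 2 3 4 (by decide) (by decide) (by decide) (by decide) (by decide) (by decide)
  have k14 := key 1 3 2 4 (by decide) (by decide) (by decide) (by decide) (by decide) (by decide)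
  have k15 := key 1 4 2 3 (by decide) (by decide) (by decide) (by decide) (by decide) (by decide)
  have s1 : ∀ x y : Fin 5, sg x y = if x < y then 1 else -1 := fun _ _ => rfl
  simp only [s1] at k1 k2 k3 k4 k5 k6 k7 k8 k9 k10 k11 k12 k13 k14 k15
  simp (decide := true) only [if_true, if_false] at k1 k2 k3 k4 k5 k6 k7 k8 k9 k10 k11 k12 k13 k14 k15
  omega

end Pool.Agent.Hx53.Van
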